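import Pool.Agent.H57.KS.Str

/-!
# Counting the good pairs; the good residues
-/

set_option autoImplicit false

namespace Pool.Agent.H57.KS

open Finset

open Classical in
/-- the finite set of good pairs -/
noncomputable def gp (L : ℕ) : Finset (ℕ × ℕ) :=
  ((range (4 ^ L)) ×ˢ (range (16 ^ L))).filter (fun p => good L (p.1 : ℤ) (p.2 : ℤ))

lemma mem_gp (L r c : ℕ) : (r, c) ∈ gp L ↔ r < 4 ^ L ∧ c < 16 ^ L ∧ good L (r : ℤ) (c : ℤ) := by
  classical
  unfold gp
  rw [Finset.mem_filter, mem_product, mem_range, mem_range, and_assoc]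

/-- the pairs of the tangency set -/
def TS : Finset (ℕ × ℕ) := ((range 4) ×ˢ (range 4)).filter (fun p => TT p.1 p.2 = true)

lemma TS_card : TS.card = 8 := by decide

lemma mem_TS (x t : ℕ) : (x, t) ∈ TS ↔ x < 4 ∧ t < 4 ∧ TT x t = true := by
  unfold TS
  rw [mem_filter, mem_product, mem_range, mem_range, and_assoc]

lemma gp_card (L : ℕ) : 32 ^ L ≤ (gp L).card := by
  induction L with
  | zero =>
    have : (0, 0) ∈ gp 0 := by
      rw [mem_gp]
      exact ⟨by norm_num, by norm_num, trivial⟩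
    rw [pow_zero]
    exact Finset.card_pos.2 ⟨_, this⟩
  | succ L ih =>
    have hcard : ((TS ×ˢ range 4) ×ˢ gp L).card = 32 * (gp L).card := by
      rw [card_product, card_product, TS_card, card_range]
    rw [pow_succ, mul_comm]
    refine (Nat.mul_le_mul_left 32 ih).trans ?_
    rw [← hcard]
    have h16 : (16 : ℕ) ^ (L + 1) = 16 * 16 ^ L := by rw [pow_succ]; ring
    have h4 : (4 : ℕ) ^ (L + 1) = 4 * 4 ^ L := by rw [pow_succ]; ring
    have h16p : 0 < 16 ^ L := by positivity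
    refine Finset.card_le_card_of_injOn (fun q : ((ℕ × ℕ) × ℕ) × (ℕ × ℕ) =>
      (q.1.1.1 + 4 * q.2.1, (q.1.1.2 + 4 * q.1.2 + 16 * q.2.2 +
        4 * (sl q.1.1.1 q.1.1.2 * q.2.1)) % 16 ^ (L + 1))) ?_ ?_
    · rintro ⟨⟨⟨x, t⟩, φ⟩, ⟨r, c⟩⟩ hq
      rw [Finset.mem_coe, mem_product, mem_product] at hq
      obtain ⟨⟨hT, hφ⟩, hG⟩ := hq
      simp only at hT hφ hG
      rw [mem_TS] at hT
      rw [mem_range] at hφ
      rw [mem_gp] at hG
      obtain ⟨hx, ht, hTT⟩ := hT
      obtain ⟨hr, hc, hg⟩ := hG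
      rw [Finset.mem_coe]
      simp only
      rw [mem_gp]
      set s := sl x t with hs
      set A := t + 4 * φ + 16 * c + 4 * (s * r) with hA
      refine ⟨by omega, Nat.mod_lt _ (by positivity), ?_⟩
      have hdiv := Nat.div_add_mod A (16 ^ (L + 1))
      set j := A / 16 ^ (L + 1) with hj
      set c' := A % 16 ^ (L + 1) with hc'
      have d1 : dig ((x + 4 * r : ℕ) : ℤ) = x := by
        have := dig_cast ((x + 4 * r : ℕ) : ℤ)
        omega
      have d2 : dig ((c' : ℕ) : ℤ) = t := by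
        have h1 := dig_cast ((c' : ℕ) : ℤ)
        have h2 : 16 ^ (L + 1) * j = 4 * (4 * 16 ^ L * j) := by rw [h16]; ring
        have h3 : c' % 4 = t := by
          have : c' + 4 * (4 * 16 ^ L * j) = t + 4 * (φ + 4 * c + s * r) := by
            rw [← h2]
            omega
          omega
        omega
      have d3 : (((x + 4 * r : ℕ) : ℤ) / 4) = r := by omega
      refine ⟨by rw [d1, d2]; exact hTT, ?_⟩
      rw [d1, d2, d3, ← hs]
      have e : (((c' : ℕ) : ℤ) - 4 * (s : ℤ) * r) / 16 = (c : ℤ) + 16 ^ L * (-(j : ℤ)) := by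
        have h1 : ((c' : ℕ) : ℤ) = (t : ℤ) + 4 * φ + 16 * c + 4 * ((s : ℤ) * r) -
            16 * (16 ^ L * j) := by
          have h2 : 16 ^ (L + 1) * j + c' = t + 4 * φ + 16 * c + 4 * (s * r) := hdiv
          rw [h16] at h2
          have h3 : ((16 * 16 ^ L * j + c' : ℕ) : ℤ) =
            ((t + 4 * φ + 16 * c + 4 * (s * r) : ℕ) : ℤ) := by rw [h2]
          push_cast at h3
          linarith
        have h4 : ((c' : ℕ) : ℤ) - 4 * (s : ℤ) * r = (t + 4 * φ : ℤ) +
            16 * ((c : ℤ) + 16 ^ L * (-(j : ℤ))) := by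
          rw [h1]
          ring
        rw [h4]
        generalize ((c : ℤ) + 16 ^ L * (-(j : ℤ))) = B
        omega
      rw [e, good_period]
      exact hg
    · rintro ⟨⟨⟨x, t⟩, φ⟩, ⟨r, c⟩⟩ hq ⟨⟨⟨x', t'⟩, φ'⟩, ⟨r', c'⟩⟩ hq' heq
      rw [Finset.mem_coe, mem_product, mem_product] at hq hq'
      obtain ⟨⟨hT, hφ⟩, hG⟩ := hq
      obtain ⟨⟨hT', hφ'⟩, hG'⟩ := hq'
      simp only at hT hφ hG hT' hφ' hG'
      rw [mem_TS] at hT hT'
      rw [mem_range] at hφ hφ'
      rw [mem_gp] at hG hG'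
      obtain ⟨hx, ht, -⟩ := hT
      obtain ⟨hr, hc, -⟩ := hG
      obtain ⟨hx', ht', -⟩ := hT'
      obtain ⟨hr', hc', -⟩ := hG'
      simp only [Prod.mk.injEq] at heq
      obtain ⟨h1, h2⟩ := heq
      have ex : x = x' := by omega
      have er : r = r' := by omega
      subst ex
      subst er
      have h3 : t + 4 * φ + 16 * c + 4 * (sl x t * r) ≡
        t' + 4 * φ' + 16 * c' + 4 * (sl x t' * r) [MOD 16 ^ (L + 1)] := h2
      have h4 : t + 4 * φ + 16 * c + 4 * (sl x t * r) ≡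
        t' + 4 * φ' + 16 * c' + 4 * (sl x t' * r) [MOD 4] :=
        h3.of_dvd (by rw [h16]; exact Dvd.intro _ (by ring : 4 * (4 * 16 ^ L) = 16 * 16 ^ L))
      have et : t = t' := by
        unfold Nat.ModEq at h4
        omega
      subst et
      have h5 := Nat.ModEq.add_right_cancel' _ h3
      have h6 : t + 4 * φ + 16 * c = t + 4 * φ' + 16 * c' := by
        refine Nat.ModEq.eq_of_lt_of_lt h5 ?_ ?_ <;> omega
      have eφ : φ = φ' := by omega
      have ec : c = c' := by omega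
      rw [eφ, ec]

/-- the block length -/
def bl (L : ℕ) : ℕ := 2 * 16 ^ L

/-- the number of rows -/
def rw' (L : ℕ) : ℕ := 2 * 4 ^ L

/-- the period -/
def PP (L : ℕ) : ℕ := bl L * (rw' L * 16 ^ L)

lemma PP_eq (L : ℕ) : PP L = 4 * 1024 ^ L := by
  unfold PP bl rw'
  have : (1024 : ℕ) ^ L = 16 ^ L * 4 ^ L * 16 ^ L := by
    rw [← mul_pow, ← mul_pow]
    norm_num
  rw [this]
  ring

lemma PP_pos (L : ℕ) : 0 < PP L := by
  rw [PP_eq]
  positivity

/-- the good integers -/
def inG (L : ℕ) (z : ℤ) : Prop :=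
  z % (bl L : ℤ) < 16 ^ L ∧ (z / (bl L : ℤ)) % (rw' L : ℤ) < 4 ^ L ∧
    good L ((z / (bl L : ℤ)) % (rw' L : ℤ)) (z / (bl L : ℤ) / (rw' L : ℤ))

lemma digits_of (L : ℕ) (e r c : ℤ) (he : 0 ≤ e) (he2 : e < bl L) (hr : 0 ≤ r)
    (hr2 : r < rw' L) : (e + bl L * (r + rw' L * c)) % (bl L : ℤ) = e ∧
      (e + bl L * (r + rw' L * c)) / (bl L : ℤ) % (rw' L : ℤ) = r ∧
      (e + bl L * (r + rw' L * c)) / (bl L : ℤ) / (rw' L : ℤ) = c := by
  have hb : (0 : ℤ) < bl L := lt_of_le_of_lt he he2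
  have hr0 : (0 : ℤ) < rw' L := lt_of_le_of_lt hr hr2
  have h1 : (e + bl L * (r + rw' L * c)) / (bl L : ℤ) = r + rw' L * c := by
    rw [Int.add_mul_ediv_left _ _ hb.ne', Int.ediv_eq_zero_of_lt he he2, zero_add]
  refine ⟨?_, ?_, ?_⟩
  · rw [Int.add_mul_emod_self_left, Int.emod_eq_of_lt he he2]
  · rw [h1, Int.add_mul_emod_self_left, Int.emod_eq_of_lt hr hr2]
  · rw [h1, Int.add_mul_ediv_left _ _ hr0.ne', Int.ediv_eq_zero_of_lt hr hr2, zero_add]

lemma inG_iff (L : ℕ) (e r c : ℤ) (he : 0 ≤ e) (he2 : e < bl L) (hr : 0 ≤ r)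
    (hr2 : r < rw' L) : inG L (e + bl L * (r + rw' L * c)) ↔ e < 16 ^ L ∧ r < 4 ^ L ∧
      good L r c := by
  obtain ⟨h1, h2, h3⟩ := digits_of L e r c he he2 hr hr2
  unfold inG
  rw [h1, h2, h3]

lemma exists_digits (L : ℕ) (z : ℤ) : ∃ e r c : ℤ, 0 ≤ e ∧ e < bl L ∧ 0 ≤ r ∧ r < rw' L ∧
    z = e + bl L * (r + rw' L * c) := by
  have hb : (0 : ℤ) < bl L := by unfold bl; positivity
  have hr0 : (0 : ℤ) < rw' L := by unfold rw'; positivity
  refine ⟨z % bl L, z / bl L % rw' L, z / bl L / rw' L, Int.emod_nonneg _ hb.ne',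
    Int.emod_lt_of_pos _ hb, Int.emod_nonneg _ hr0.ne', Int.emod_lt_of_pos _ hr0, ?_⟩
  rw [Int.emod_add_mul_ediv, Int.emod_add_mul_ediv]

lemma inG_period (L : ℕ) (z j : ℤ) : inG L (z + PP L * j) ↔ inG L z := by
  obtain ⟨e, r, c, he, he2, hr, hr2, rfl⟩ := exists_digits L z
  have h : e + (bl L : ℤ) * (r + rw' L * c) + PP L * j =
      e + bl L * (r + rw' L * (c + 16 ^ L * j)) := by
    unfold PP
    push_cast
    ring
  rw [h, inG_iff L e r _ he he2 hr hr2, inG_iff L e r _ he he2 hr hr2, good_period]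

/-- the main property of the good integers -/
lemma inG_slope (L : ℕ) (z : ℤ) (hz : inG L z) : ∃ η : ℤ, ∀ m t j : ℤ, 1 ≤ m → m < 4 ^ L →
    0 ≤ t → t ≤ m ^ 2 → ¬ inG L (z + m * η + t + PP L * j) := by
  obtain ⟨e, r, c, he, he2, hr, hr2, rfl⟩ := exists_digits L z
  rw [inG_iff L e r c he he2 hr hr2] at hz
  obtain ⟨he3, hr3, hg⟩ := hz
  obtain ⟨y, hy⟩ := good_slope L r c hr hg
  refine ⟨bl L * (1 + rw' L * y), fun m t j hm hmw ht htm hcon => ?_⟩
  rw [inG_period] at hcon
  have h16 : (16 : ℤ) ^ L = 4 ^ L * 4 ^ L := by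
    rw [← mul_pow]
    norm_num
  have htl : t < 16 ^ L := by
    refine lt_of_le_of_lt htm ?_
    rw [h16]
    nlinarith
  have h : e + (bl L : ℤ) * (r + rw' L * c) + m * (bl L * (1 + rw' L * y)) + t =
      (e + t) + bl L * ((r + m) + rw' L * (c + m * y)) := by ring
  have hbl : (bl L : ℤ) = 2 * 16 ^ L := by unfold bl; push_cast; ring
  have hrw : (rw' L : ℤ) = 2 * 4 ^ L := by unfold rw'; push_cast; ring
  rw [h, inG_iff L (e + t) (r + m) (c + m * y) (by omega) (by omega) (by omega) (by omega)] at hcon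
  exact hy m hm hcon.2.1 hcon.2.2

open Classical in
/-- the good residues -/
lemma count_inG (L : ℕ) : 512 ^ L ≤ Nat.count (fun g : ℕ => inG L (g : ℤ)) (PP L) := by
  rw [Nat.count_eq_card_filter_range]
  have hcard : (range (16 ^ L) ×ˢ gp L).card = 16 ^ L * (gp L).card := by
    rw [card_product, card_range]
  have h512 : (512 : ℕ) ^ L = 16 ^ L * 32 ^ L := by
    rw [← mul_pow]
    norm_num
  rw [h512]
  refine (Nat.mul_le_mul_left _ (gp_card L)).trans ?_
  rw [← hcard]
  have hbl : bl L = 2 * 16 ^ L := rfl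
  have hrw : rw' L = 2 * 4 ^ L := rfl
  have h16p : 0 < 16 ^ L := by positivity
  have h4p : 0 < 4 ^ L := by positivity
  refine Finset.card_le_card_of_injOn (fun q : ℕ × (ℕ × ℕ) =>
    q.1 + bl L * (q.2.1 + rw' L * q.2.2)) ?_ ?_
  · rintro ⟨e, r, c⟩ hq
    rw [Finset.mem_coe, mem_product, mem_range] at hq
    obtain ⟨he, hG⟩ := hq
    simp only at he hG
    rw [mem_gp] at hG
    obtain ⟨hr, hc, hg⟩ := hG
    rw [Finset.mem_coe, mem_filter, mem_range]
    simp only
    constructor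
    · have h1 : r + rw' L * c < rw' L * 16 ^ L := by
        have : rw' L * c + rw' L ≤ rw' L * 16 ^ L := by
          calc rw' L * c + rw' L = rw' L * (c + 1) := by ring
            _ ≤ rw' L * 16 ^ L := Nat.mul_le_mul_left _ hc
        omega
      have h2 : bl L * (r + rw' L * c) + bl L ≤ bl L * (rw' L * 16 ^ L) := by
        calc bl L * (r + rw' L * c) + bl L = bl L * (r + rw' L * c + 1) := by ring
          _ ≤ bl L * (rw' L * 16 ^ L) := Nat.mul_le_mul_left _ h1
      unfold PP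
      omega
    · have := inG_iff L e r c (by positivity) (by exact_mod_cast (by omega : e < bl L))
        (by positivity) (by exact_mod_cast (by omega : r < rw' L))
      push_cast
      rw [this]
      exact ⟨by exact_mod_cast he, by exact_mod_cast hr, hg⟩
  · rintro ⟨e, r, c⟩ hq ⟨e', r', c'⟩ hq' heq
    rw [Finset.mem_coe, mem_product, mem_range] at hq hq'
    obtain ⟨he, hG⟩ := hq
    obtain ⟨he', hG'⟩ := hq'
    simp only at he hG he' hG' heq
    rw [mem_gp] at hG hG'
    obtain ⟨hr, hc, -⟩ := hG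
    obtain ⟨hr', hc', -⟩ := hG'
    have heqz : (e : ℤ) + bl L * (r + rw' L * c) = e' + bl L * (r' + rw' L * c') := by
      exact_mod_cast heq
    obtain ⟨a1, a2, a3⟩ := digits_of L e r c (by positivity)
      (by exact_mod_cast (by omega : e < bl L)) (by positivity)
      (by exact_mod_cast (by omega : r < rw' L))
    obtain ⟨b1, b2, b3⟩ := digits_of L e' r' c' (by positivity)
      (by exact_mod_cast (by omega : e' < bl L)) (by positivity)
      (by exact_mod_cast (by omega : r' < rw' L))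
    rw [heqz] at a1 a2 a3
    have e1 : e = e' := by exact_mod_cast (a1.symm.trans b1)
    have e2 : r = r' := by exact_mod_cast (a2.symm.trans b2)
    have e3 : c = c' := by exact_mod_cast (a3.symm.trans b3)
    rw [e1, e2, e3]

open Classical in
/-- the number of good integers in an interval -/
lemma count_interval (L b : ℕ) (q : ℕ) :
    q * 512 ^ L ≤ ((Ico b (b + q * PP L)).filter (fun g : ℕ => inG L (g : ℤ))).card := by
  have hper : Function.Periodic (fun g : ℕ => inG L (g : ℤ)) (PP L) := by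
    intro g
    have := inG_period L (g : ℤ) 1
    rw [mul_one] at this
    simp only
    push_cast
    exact propext this
  induction q with
  | zero => simp
  | succ q ih =>
    have h1 : Ico b (b + (q + 1) * PP L) = Ico b (b + q * PP L) ∪
        Ico (b + q * PP L) (b + q * PP L + PP L) := by
      rw [Finset.Ico_union_Ico_eq_Ico (by omega) (by omega)]
      congr 1
      ring
    have hdis : Disjoint ((Ico b (b + q * PP L)).filter (fun g : ℕ => inG L (g : ℤ)))
        ((Ico (b + q * PP L) (b + q * PP L + PP L)).filter (fun g : ℕ => inG L (g : ℤ))) := by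
      refine Finset.disjoint_filter_filter ?_
      exact Finset.Ico_disjoint_Ico_consecutive _ _ _
    rw [h1, Finset.filter_union, Finset.card_union_of_disjoint hdis,
      Nat.filter_Ico_card_eq_of_periodic _ _ _ hper]
    have := count_inG L
    rw [add_mul, one_mul]
    exact Nat.add_le_add ih this

end Pool.Agent.H57.KS
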