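import Pool.Agent.H37.SP.Defs
import Pool.Agent.H57.KS.Cnt

/-!
# The design of the 4-adic tangency set
-/

set_option autoImplicit false

namespace Pool.Agent.H57.KS

open Finset Pool.Agent.H37.SP

/-- the slope of a good pair, reduced to `[0, 16 ^ L)`; see `good_slope'` -/
lemma good_slope' (L : ℕ) : ∀ (r c : ℤ), 0 ≤ r → good L r c → ∃ y : ℤ, 0 ≤ y ∧ y < 4 ^ L ∧
    ∀ m : ℤ, 1 ≤ m → r + m < 4 ^ L → ¬ good L (r + m) (c + m * y) := by
  induction L with
  | zero =>
    intro r c hr _
    refine ⟨0, le_rfl, by norm_num, fun m hm h => ?_⟩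
    simp at h
    omega
  | succ L ih =>
    intro r c hr hg
    obtain ⟨hT, hg'⟩ := hg
    obtain ⟨y', hy0, hy1, hy'⟩ := ih (r / 4) _ (by omega) hg'
    set s : ℕ := sl (dig r) (dig c) with hs
    have hs3 : s ≤ 3 := by
      rw [hs]
      unfold sl
      split_ifs <;> omega
    refine ⟨(s : ℤ) + 4 * y', by positivity, by rw [pow_succ]; omega, fun m hm hlt hgood => ?_⟩
    obtain ⟨hT2, hg2⟩ := hgood
    by_cases hm4 : m % 4 = 0
    · obtain ⟨m', rfl⟩ : ∃ m', m = 4 * m' := ⟨m / 4, by omega⟩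
      have e1 : dig (r + 4 * m') = dig r := by
        unfold dig
        congr 1
        omega
      have e2 : dig (c + 4 * m' * ((s : ℤ) + 4 * y')) = dig c := by
        unfold dig
        congr 1
        have : c + 4 * m' * ((s : ℤ) + 4 * y') = c + 4 * (m' * ((s : ℤ) + 4 * y')) := by ring
        rw [this]
        omega
      have e3 : (r + 4 * m') / 4 = r / 4 + m' := by omega
      rw [e1, e2, e3, ← hs] at hg2
      have e4 : (c + 4 * m' * ((s : ℤ) + 4 * y') - 4 * (s : ℤ) * (r / 4 + m')) / 16 =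
          (c - 4 * (s : ℤ) * (r / 4)) / 16 + m' * y' := by
        have : c + 4 * m' * ((s : ℤ) + 4 * y') - 4 * (s : ℤ) * (r / 4 + m') =
          (c - 4 * (s : ℤ) * (r / 4)) + 16 * (m' * y') := by ring
        rw [this]
        generalize (c - 4 * (s : ℤ) * (r / 4)) = A
        generalize (m' * y' : ℤ) = B
        omega
      rw [e4] at hg2
      refine hy' m' (by omega) ?_ hg2
      rw [pow_succ] at hlt
      omega
    · have h1 := TT_slope (dig r) (dig_lt r) (dig c) (dig_lt c) hT (dig m) (dig_lt m) (by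
        have := dig_cast m
        intro h0
        rw [h0] at this
        exact hm4 this.symm)
      have e1 : dig (r + m) = (dig r + dig m) % 4 := by
        have h2 := dig_cast r
        have h3 := dig_cast m
        have h4 := dig_cast (r + m)
        omega
      have e2 : dig (c + m * ((s : ℤ) + 4 * y')) = (dig c + dig m * s) % 4 := by
        have h2 := dig_cast c
        have h3 := dig_cast m
        have h4 := dig_cast (c + m * ((s : ℤ) + 4 * y'))
        have h5 : ((dig c + dig m * s : ℕ) : ℤ) % 4 = (c + m * ((s : ℤ) + 4 * y')) % 4 := by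
          push_cast
          rw [h2, h3]
          have h6 : c + m * ((s : ℤ) + 4 * y') = (c % 4 + m % 4 * s) + 4 * (c / 4 +
            m / 4 * s + m * y') := by
            have h7 := Int.mul_ediv_add_emod c 4
            have h8 := Int.mul_ediv_add_emod m 4
            nlinarith [h7, h8]
          rw [h6]
          omega
        omega
      rw [e1, e2, h1] at hT2
      exact absurd hT2 (by decide)

/-- the signals -/
noncomputable def UU (L : ℕ) : Finset (ℕ × ℕ) :=
  ((range (16 ^ L)) ×ˢ gp L).image (fun q => (q.2.1, 16 ^ L + q.1 + 2 * 16 ^ L * q.2.2))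

lemma mem_UU {L : ℕ} {p : ℕ × ℕ} (hp : p ∈ UU L) : ∃ e c : ℕ, e < 16 ^ L ∧ c < 16 ^ L ∧
    p.1 < 4 ^ L ∧ good L (p.1 : ℤ) (c : ℤ) ∧ p.2 = 16 ^ L + e + 2 * 16 ^ L * c := by
  unfold UU at hp
  obtain ⟨⟨e, r, c⟩, hq, rfl⟩ := Finset.mem_image.1 hp
  rw [mem_product, mem_range] at hq
  obtain ⟨he, hG⟩ := hq
  simp only at he hG
  rw [mem_gp] at hG
  exact ⟨e, c, he, hG.2.1, hG.1, hG.2.2, rfl⟩

lemma UU_card (L : ℕ) : 512 ^ L ≤ (UU L).card := by
  unfold UU
  rw [Finset.card_image_of_injOn, card_product, card_range]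
  · have h512 : (512 : ℕ) ^ L = 16 ^ L * 32 ^ L := by
      rw [← mul_pow]
      norm_num
    rw [h512]
    exact Nat.mul_le_mul_left _ (gp_card L)
  · rintro ⟨e, r, c⟩ hq ⟨e', r', c'⟩ hq' heq
    rw [Finset.mem_coe, mem_product, mem_range] at hq hq'
    obtain ⟨he, -⟩ := hq
    obtain ⟨he', -⟩ := hq'
    simp only at he he'
    simp only [Prod.mk.injEq] at heq
    obtain ⟨h1, h2⟩ := heq
    have h3 : c = c' := by
      by_contra hne
      rcases Nat.lt_or_gt_of_ne hne with h | h
      · have : 2 * 16 ^ L * (c + 1) ≤ 2 * 16 ^ L * c' := Nat.mul_le_mul_left _ h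
        rw [mul_add, mul_one] at this
        omega
      · have : 2 * 16 ^ L * (c' + 1) ≤ 2 * 16 ^ L * c := Nat.mul_le_mul_left _ h
        rw [mul_add, mul_one] at this
        omega
    subst h3
    have h4 : e = e' := by omega
    rw [h1, h4]

/-- The design with `4 ^ L` columns and height `2 * 256 ^ L`. -/
theorem design (L : ℕ) : ∃ s : ℕ × ℕ → ℤ, Design (4 ^ L) (2 * 256 ^ L) (UU L) s := by
  classical
  have hex : ∀ p : ℕ × ℕ, ∃ s : ℤ, p ∈ UU L → |s| * (4 ^ L : ℕ) ≤ (2 * 256 ^ L : ℕ) ∧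
      ∀ q ∈ UU L, ∀ μ e : ℕ, 1 ≤ μ → q.1 = p.1 + μ → e ≤ μ ^ 2 →
        (q.2 : ℤ) ≠ p.2 + s * μ - e := by
    intro p
    by_cases hp : p ∈ UU L
    · obtain ⟨e0, c, he0, hc, hr, hg, hp2⟩ := mem_UU hp
      obtain ⟨y, hy0, hy1, hy⟩ := good_slope' L (p.1 : ℤ) (c : ℤ) (by positivity) hg
      refine ⟨2 * 16 ^ L * y, fun _ => ⟨?_, ?_⟩⟩
      · have h0 : (0 : ℤ) ≤ 2 * 16 ^ L * y := by positivity
        rw [abs_of_nonneg h0]
        push_cast
        have h256 : (256 : ℤ) ^ L = 16 ^ L * (4 ^ L * 4 ^ L) := by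
          rw [← mul_pow, ← mul_pow]
          norm_num
        have h4 : (0 : ℤ) < 4 ^ L := by positivity
        have h16 : (0 : ℤ) < 16 ^ L := by positivity
        calc 2 * 16 ^ L * y * 4 ^ L ≤ 2 * 16 ^ L * 4 ^ L * 4 ^ L := by gcongr
          _ = 2 * 256 ^ L := by rw [h256]; ring
      · intro q hq μ e hμ hq1 he hcon
        obtain ⟨e1, c1, he1, hc1, hr1, hg1, hq2⟩ := mem_UU hq
        have hμ4 : μ < 4 ^ L := by omega
        have h16 : (16 : ℕ) ^ L = 4 ^ L * 4 ^ L := by
          rw [← mul_pow]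
          norm_num
        have hμ2 : μ ^ 2 < 16 ^ L := by
          rw [h16]
          nlinarith
        rw [hq2, hp2] at hcon
        push_cast at hcon
        -- the columns
        have he1' : (e1 : ℤ) < 16 ^ L := by exact_mod_cast he1
        have he0' : (e0 : ℤ) < 16 ^ L := by exact_mod_cast he0
        have he' : (e : ℤ) < 16 ^ L := by exact_mod_cast (lt_of_le_of_lt he hμ2)
        have hcc : (c1 : ℤ) = c + μ * y := by
          have h5 : 2 * 16 ^ L * ((c1 : ℤ) - (c + μ * y)) = (e0 : ℤ) - e - e1 := by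
            linear_combination hcon
          by_contra hne
          rcases lt_or_gt_of_ne hne with h | h
          · have h6 : (c1 : ℤ) - (c + μ * y) ≤ -1 := by linarith
            have h7 : 2 * 16 ^ L * ((c1 : ℤ) - (c + μ * y)) ≤ 2 * 16 ^ L * (-1) :=
              mul_le_mul_of_nonneg_left h6 (by positivity)
            have h8 : (0 : ℤ) ≤ e0 := by positivity
            linarith
          · have h6 : 1 ≤ (c1 : ℤ) - (c + μ * y) := by linarith
            have h7 : 2 * 16 ^ L * 1 ≤ 2 * 16 ^ L * ((c1 : ℤ) - (c + μ * y)) :=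
              mul_le_mul_of_nonneg_left h6 (by positivity)
            have h8 : (0 : ℤ) ≤ e := by positivity
            have h9 : (0 : ℤ) ≤ e1 := by positivity
            linarith
        refine hy (μ : ℤ) (by exact_mod_cast hμ) ?_ ?_
        · have : p.1 + μ < 4 ^ L := by omega
          exact_mod_cast this
        · rw [← hcc]
          have : ((q.1 : ℕ) : ℤ) = p.1 + μ := by exact_mod_cast hq1
          rw [← this]
          exact hg1
    · exact ⟨0, fun h => absurd h hp⟩
  choose s hs using hex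
  refine ⟨s, ⟨fun p hp => ?_, fun p hp => ?_, fun p hp => ?_, fun p hp q hq μ e h1 h2 h3 => ?_⟩⟩
  · obtain ⟨e0, c, he0, hc, hr, hg, hp2⟩ := mem_UU hp
    exact hr
  · obtain ⟨e0, c, he0, hc, hr, hg, hp2⟩ := mem_UU hp
    rw [hp2]
    have h256 : (256 : ℕ) ^ L = 16 ^ L * 16 ^ L := by
      rw [← mul_pow]
      norm_num
    have : 2 * 16 ^ L * (c + 1) ≤ 2 * 16 ^ L * 16 ^ L := Nat.mul_le_mul_left _ hc
    rw [mul_add, mul_one] at this
    rw [h256]
    have h2 : 2 * (16 ^ L * 16 ^ L) = 2 * 16 ^ L * 16 ^ L := by ring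
    omega
  · exact (hs p hp).1
  · exact (hs p hp).2 q hq μ e h1 h2 h3

end Pool.Agent.H57.KS
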