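import Pool.Agent.H57.KS.Span

/-!
# The gadgets
-/

set_option autoImplicit false

namespace Pool.Agent.H57.KS

open Finset

lemma exists_cong (M P : ℕ) (η : ℤ) (hP : 0 < P) (hM : P ≤ M) :
    ∃ y : ℕ, y ≤ M ∧ M < y + P ∧ ∃ i : ℤ, (y : ℤ) = η + P * i := by
  obtain ⟨c, hc⟩ : ∃ c : ℕ, (c : ℤ) = η % P := ⟨(η % P).toNat, by
    have := Int.emod_nonneg η (show (P : ℤ) ≠ 0 by omega)
    omega⟩
  have hcP : c < P := by
    have := Int.emod_lt_of_pos η (show (0 : ℤ) < P by omega)
    omega
  have h2 := Nat.div_add_mod (M - c) P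
  have h3 := Nat.mod_lt (M - c) hP
  refine ⟨c + P * ((M - c) / P), by omega, by omega, ((M - c) / P : ℕ) - η / P, ?_⟩
  have h4 := Int.mul_ediv_add_emod η P
  push_cast
  rw [hc]
  linear_combination h4

lemma sum_lt (k s P : ℕ) (hs : s ≤ k) :
    ∑ v : Fin k, (if v.1 < s then P else 0) = s * P := by
  rw [Fin.sum_univ_eq_sum_range (fun i => if i < s then P else 0) k, ← Finset.sum_filter]
  have : (range k).filter (fun i => i < s) = range s := by
    ext i
    simp only [mem_filter, mem_range]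
    omega
  rw [this, Finset.sum_const, Finset.card_range, smul_eq_mul]

lemma dg_compl {k : ℕ} (H : SimpleGraph (Fin k)) (v : Fin k) : dg Hᶜ v + dg H v = k - 1 := by
  have h : ∀ w, ind (Hᶜ.Adj v w) + ind (H.Adj v w) + ind (w = v) = 1 := by
    intro w
    by_cases h1 : w = v
    · subst h1
      rw [ind_t rfl, ind_f (Hᶜ.loopless.irrefl w), ind_f (H.loopless.irrefl w)]
    · rw [ind_f h1]
      by_cases h2 : H.Adj v w
      · rw [ind_t h2, ind_f]
        rw [SimpleGraph.compl_adj]
        exact fun h => h.2 h2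
      · rw [ind_f h2, ind_t]
        rw [SimpleGraph.compl_adj]
        exact ⟨fun h => h1 h.symm, h2⟩
  have hs := Finset.sum_congr rfl (fun w (_ : w ∈ (univ : Finset (Fin k))) => h w)
  simp only [Finset.sum_add_distrib, sum_ind_eq, Finset.sum_const, Finset.card_univ,
    Fintype.card_fin, smul_eq_mul, mul_one] at hs
  unfold dg
  omega

/-- the gadget with `z` edges: all but `y` of the pairs at each vertex are edges, up to multiples
of `P` and one more pair -/
theorem gadget (k P E F z x : ℕ) (hP0 : 0 < P) (hF : 3 * P + E + 1 ≤ F)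
    (hk : 2 * F ^ 2 + 2 * F * P < k * P) (hzx : 2 * z + 2 * x = k * (k - 1)) (hx1 : k * P < x)
    (hx2 : 2 * x ≤ k * (2 * P + E)) (η : ℤ) :
    ∃ (J : SimpleGraph (Fin k)) (f : Fin k → ℕ) (y : ℕ), spans J univ = z ∧
      (∀ v, dg J v + f v = k - 1) ∧ (∀ v, f v ≤ F) ∧
      (∀ R : Finset (Fin k), ∃ i ≤ R.card, ∃ s, ∑ v ∈ R, f v = R.card * y + i + P * s) ∧
      ∃ i : ℤ, (y : ℤ) = η + P * i := by
  have hFP : P ≤ F := by omega
  have hkF : F ≤ k := by
    by_contra hcon
    push Not at hcon
    have : k * P ≤ F * P := Nat.mul_le_mul_right _ hcon.le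
    nlinarith
  have hk0 : 0 < k := by omega
  -- the base degree
  have hM := Nat.div_add_mod (2 * x) k
  have hρ := Nat.mod_lt (2 * x) hk0
  set M := 2 * x / k with hMdef
  set ρ := 2 * x % k with hρdef
  have hM1 : 2 * P ≤ M := by
    rw [hMdef, Nat.le_div_iff_mul_le hk0]
    nlinarith
  have hM2 : M ≤ 2 * P + E := by
    have : M * k ≤ (2 * P + E) * k := by
      rw [mul_comm M k, mul_comm _ k]
      omega
    exact Nat.le_of_mul_le_mul_right this hk0
  obtain ⟨y, hy1, hy2, hy3⟩ := exists_cong M P η hP0 (by omega)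
  -- the remainder
  set T := 2 * x - k * y with hT
  have hky : k * y ≤ k * M := Nat.mul_le_mul_left _ hy1
  have hTeq : k * y + T = 2 * x := by omega
  have hTlt : T < k * P := by
    have h1 : k * (M + 1) ≤ k * (y + P) := Nat.mul_le_mul_left _ (by omega)
    rw [mul_add, mul_one, mul_add] at h1
    omega
  have hTd := Nat.div_add_mod T P
  have hn1 := Nat.mod_lt T hP0
  set s := T / P with hs
  set n1 := T % P with hn1def
  have hsk : s < k := by
    rw [hs, Nat.div_lt_iff_lt_mul hP0]
    exact hTlt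
  have hPk : P ≤ k := by omega
  let f : Fin k → ℕ := fun v => y + (if v.1 < s then P else 0) + (if v.1 < n1 then 1 else 0)
  have hsumf : ∑ v, f v = 2 * x := by
    simp only [f, Finset.sum_add_distrib, sum_lt k s P hsk.le, sum_lt k n1 1 (by omega)]
    rw [Finset.sum_const, Finset.card_univ, Fintype.card_fin, smul_eq_mul]
    rw [mul_comm s P]
    omega
  have hf1 : ∀ v, P ≤ f v := by
    intro v
    simp only [f]
    omega
  have hfF : ∀ v, f v ≤ F := by
    intro v
    simp only [f]
    split_ifs <;> omega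
  obtain ⟨H, hH⟩ := exists_graph f F P hf1 hfF (by rw [Fintype.card_fin]; exact hk)
    (by rw [hsumf]; exact even_two_mul x)
  refine ⟨Hᶜ, f, y, ?_, ?_, hfF, ?_, hy3⟩
  · have h1 : e2 Hᶜ univ = ∑ v, dg Hᶜ v := rfl
    have h2 := e2_eq Hᶜ univ
    have h3 : ∑ v, dg Hᶜ v + ∑ v, f v = k * (k - 1) := by
      rw [← Finset.sum_add_distrib]
      have : ∀ v ∈ (univ : Finset (Fin k)), dg Hᶜ v + f v = k - 1 := by
        intro v _
        rw [← hH v]
        exact dg_compl H v
      rw [Finset.sum_congr rfl this, Finset.sum_const, Finset.card_univ, Fintype.card_fin,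
        smul_eq_mul]
    omega
  · intro v
    rw [← hH v]
    exact dg_compl H v
  · intro R
    refine ⟨(R.filter (fun v => v.1 < n1)).card, Finset.card_filter_le _ _,
      (R.filter (fun v => v.1 < s)).card, ?_⟩
    simp only [f, Finset.sum_add_distrib, Finset.sum_const, smul_eq_mul]
    rw [← Finset.sum_filter, ← Finset.sum_filter, Finset.sum_const, Finset.sum_const, smul_eq_mul,
      smul_eq_mul, mul_one]
    ring

end Pool.Agent.H57.KS
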