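import Pool.Agent.H37.SP.Union
import Pool.Agent.H57.KS.Gad

/-!
# Module G2: a graph with `z` edges and degrees `17 ρ`, `18 ρ` up to one
-/

set_option autoImplicit false

namespace Pool.Agent.H57.KS

open Finset Pool.Agent.H37.SP

lemma dg_eq_degree {k : ℕ} (H : SimpleGraph (Fin k)) (v : Fin k) [Fintype (H.neighborSet v)] :
    dg H v = H.degree v := by
  classical
  rw [dg_eq_card, ← SimpleGraph.card_neighborFinset_eq_degree]
  congr 1
  ext w
  simp

lemma g2_num (k ρ F δ : ℕ) (hk : 10000 ≤ k) (h1 : 99 * k ≤ 2000 * ρ + 1881)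
    (h2 : 2000 * ρ ≤ 101 * k) (hF : F + 1 + 17 * ρ = k) (hδ : δ + 2 + 18 * ρ = k) :
    2 * F ^ 2 + 2 * F * δ < k * δ := by
  have a1 : 2000 * F ≤ 317 * k + 30000 := by omega
  have a2 : 91 * k ≤ 1000 * δ + 2000 := by omega
  obtain ⟨G, hG⟩ : ∃ G, k = 2 * F + G := ⟨k - 2 * F, by omega⟩
  have a3 : 683 * k ≤ 1000 * G + 30000 := by omega
  have a4 : k * δ = 2 * F * δ + G * δ := by rw [hG]; ring
  rw [a4]
  have b1 : 90 * k ≤ 1000 * δ := by omega
  have b2 : 680 * k ≤ 1000 * G := by omega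
  have b3 : 1000 * F ≤ 160 * k := by omega
  have c1 : (680 * k) * (90 * k) ≤ (1000 * G) * (1000 * δ) := Nat.mul_le_mul b2 b1
  have c2 : (1000 * F) * (1000 * F) ≤ (160 * k) * (160 * k) := Nat.mul_le_mul b3 b3
  nlinarith

open Classical in
theorem g2 (k κ ρ z : ℕ) (hk : 10000 ≤ k) (hκ1 : 20 * κ ≤ k) (hκ2 : k < 20 * κ + 20)
    (hρ1 : 100 * ρ ≤ 101 * κ) (hρ2 : 99 * κ ≤ 100 * ρ)
    (hz1 : 346 * (κ * k) ≤ 40 * z) (hz2 : 4 * z ≤ 35 * (κ * k)) :
    ∃ J : SimpleGraph (Fin k), ecount J univ = z ∧ ∀ v, J.degree v = 17 * ρ ∨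
      J.degree v = 17 * ρ + 1 ∨ J.degree v = 18 * ρ ∨ J.degree v = 18 * ρ + 1 := by
  have hρ0 : 0 < ρ := by omega
  have hk0 : 0 < k := by omega
  have m1 : 100 * (ρ * k) ≤ 101 * (κ * k) := by
    have := Nat.mul_le_mul_right k hρ1
    nlinarith
  have m2 : 99 * (κ * k) ≤ 100 * (ρ * k) := by
    have := Nat.mul_le_mul_right k hρ2
    nlinarith
  have hκk : 0 < κ * k := Nat.mul_pos (by omega) hk0
  obtain ⟨T, hT⟩ : ∃ T, 17 * (ρ * k) + T = 2 * z := ⟨2 * z - 17 * (ρ * k), by omega⟩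
  have hTlt : T < ρ * k := by omega
  have hTd := Nat.div_add_mod T ρ
  have hn1 := Nat.mod_lt T hρ0
  set s := T / ρ with hs
  set n1 := T % ρ with hn1def
  have hsk : s < k := by
    rw [hs, Nat.div_lt_iff_lt_mul hρ0, mul_comm]
    exact hTlt
  let d : Fin k → ℕ := fun v => 17 * ρ + (if v.1 < s then ρ else 0) + (if v.1 < n1 then 1 else 0)
  have hd : ∀ v, 17 * ρ ≤ d v ∧ d v ≤ 18 * ρ + 1 := by
    intro v
    simp only [d]
    split_ifs <;> omega
  have h18 : 18 * ρ + 2 ≤ k := by omega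
  have hsumd : ∑ v, d v = 2 * z := by
    simp only [d, Finset.sum_add_distrib, sum_lt k s ρ hsk.le, sum_lt k n1 1 (by omega)]
    rw [Finset.sum_const, Finset.card_univ, Fintype.card_fin, smul_eq_mul]
    rw [mul_comm s ρ]
    have : k * (17 * ρ) = 17 * (ρ * k) := by ring
    omega
  let f : Fin k → ℕ := fun v => k - 1 - d v
  have hfd : ∀ v, f v + d v = k - 1 := by
    intro v
    have := hd v
    simp only [f]
    omega
  have hsumf : ∑ v, f v + ∑ v, d v = k * (k - 1) := by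
    rw [← Finset.sum_add_distrib, Finset.sum_congr rfl (fun v _ => hfd v), Finset.sum_const,
      Finset.card_univ, Fintype.card_fin, smul_eq_mul]
  have heven : Even (∑ v, f v) := by
    obtain ⟨h, hh⟩ := Nat.even_mul_pred_self k
    exact ⟨h - z, by omega⟩
  obtain ⟨F, hF⟩ : ∃ F, F + 1 + 17 * ρ = k := ⟨k - 1 - 17 * ρ, by omega⟩
  obtain ⟨δ, hδ⟩ : ∃ δ, δ + 2 + 18 * ρ = k := ⟨k - 2 - 18 * ρ, by omega⟩
  obtain ⟨H, hH⟩ := exists_graph f F δ (fun v => by have := hd v; have := hfd v; omega)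
    (fun v => by have := hd v; have := hfd v; omega)
    (by
      rw [Fintype.card_fin]
      exact g2_num k ρ F δ hk (by omega) (by omega) hF hδ) heven
  have hdg : ∀ v, dg Hᶜ v = d v := by
    intro v
    have h1 := dg_compl H v
    rw [hH v] at h1
    have := hfd v
    omega
  refine ⟨Hᶜ, ?_, fun v => ?_⟩
  · have h1 := pcount_eq Hᶜ (univ : Finset (Fin k))
    have h2 : pcount Hᶜ (univ : Finset (Fin k)) = ∑ v, dg Hᶜ v := by
      unfold pcount dg ind
      refine Finset.sum_congr rfl fun v _ => Finset.sum_congr rfl fun w _ => ?_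
      congr 1
    rw [h2, Finset.sum_congr rfl (fun v _ => hdg v), hsumd] at h1
    omega
  · have hgen : ∀ inst : Fintype (Hᶜ.neighborSet v),
        @SimpleGraph.degree _ Hᶜ v inst = d v := by
      intro inst
      rw [← dg_eq_degree Hᶜ v, hdg v]
    rw [hgen]
    simp only [d]
    split_ifs <;> omega

end Pool.Agent.H57.KS
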