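import Pool.Agent.H37.SP.Sig
import Pool.Agent.H57.KS.G2
import Pool.Agent.H57.KS.Des

/-!
# Assembly: designs give spectra
-/

set_option autoImplicit false

namespace Pool.Agent.H57.KS

open Finset Pool.Agent.H37.SP

/-- A design of height `H` gives `2 ^ |U|` realizable `k`-spectra for `k ≥ 10000 H`. -/
theorem design_bound (k w H : ℕ) (U : Finset (ℕ × ℕ)) (s : ℕ × ℕ → ℤ) (hD : Design w H U s)
    (hU : U.Nonempty) (hw : 1 ≤ w) (hwH : w ^ 2 ≤ H) (hk : 10000 * H ≤ k) :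
    2 ^ U.card ≤ nk k := by
  have hH : 1 ≤ H := by nlinarith
  refine design_nk k w H U s hD hU hw hwH (by omega) ?_
  intro ρ z h1 h2 h3 h4
  exact g2 k (k / 20) ρ z (by omega) (by omega) (by omega) h2 h1 h3 h4

/-- the bound for `k ≥ 20000 · 256 ^ L` -/
theorem bound' (k L : ℕ) (hk : 20000 * 256 ^ L ≤ k) : 2 ^ 512 ^ L ≤ nk k := by
  obtain ⟨s, hs⟩ := design L
  have hcard := UU_card L
  have hpos : 0 < 512 ^ L := by positivity
  refine le_trans (Nat.pow_le_pow_right (by norm_num) hcard)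
    (design_bound k _ _ _ s hs ?_ ?_ ?_ ?_)
  · exact Finset.card_pos.1 (lt_of_lt_of_le hpos hcard)
  · exact Nat.one_le_pow _ _ (by norm_num)
  · have h1 : (4 ^ L) ^ 2 = 16 ^ L := by
      rw [← pow_mul, mul_comm, pow_mul]
      norm_num
    have h2 : (16 : ℕ) ^ L ≤ 256 ^ L := Nat.pow_le_pow_left (by norm_num) L
    omega
  · omega

/-- there are at least two spectra -/
theorem two_le_nk (k : ℕ) (hk : 2 ≤ k) : 2 ≤ nk k := by
  classical
  have h0 : Realizable k (spec k (⊥ : SimpleGraph (Fin k))) := ⟨k, le_rfl, _, rfl⟩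
  have h1 : Realizable k (spec k (⊤ : SimpleGraph (Fin k))) := ⟨k, le_rfl, _, rfl⟩
  have hne : spec k (⊥ : SimpleGraph (Fin k)) ≠ spec k (⊤ : SimpleGraph (Fin k)) := by
    intro h
    have hmem : ecount (⊥ : SimpleGraph (Fin k)) univ ∈ spec k (⊤ : SimpleGraph (Fin k)) := by
      rw [← h]
      exact ⟨univ, by rw [Finset.card_univ, Fintype.card_fin], rfl⟩
    obtain ⟨A, hA, he⟩ := hmem
    have hA' : A = univ := by
      rw [← Finset.card_eq_iff_eq_univ, Fintype.card_fin]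
      exact hA
    have e1 := pcount_eq (⊥ : SimpleGraph (Fin k)) univ
    have e2 := pcount_eq (⊤ : SimpleGraph (Fin k)) univ
    have e3 : pcount (⊥ : SimpleGraph (Fin k)) univ = 0 := by
      unfold pcount
      simp
    have e4 : 0 < pcount (⊤ : SimpleGraph (Fin k)) univ := by
      unfold pcount
      have h2 : (⟨0, by omega⟩ : Fin k) ∈ (univ : Finset (Fin k)) := mem_univ _
      have h3 : (⟨1, by omega⟩ : Fin k) ∈ (univ : Finset (Fin k)) := mem_univ _
      refine lt_of_lt_of_le ?_ (Finset.single_le_sum (fun _ _ => Nat.zero_le _) h2)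
      refine lt_of_lt_of_le ?_ (Finset.single_le_sum (fun _ _ => Nat.zero_le _) h3)
      rw [if_pos]
      · norm_num
      · rw [SimpleGraph.top_adj]
        intro h4
        have := congrArg Fin.val h4
        simp at this
    rw [hA'] at he
    omega
  unfold nk
  rw [← Set.ncard_pair hne]
  refine Set.ncard_le_ncard ?_ (realizable_finite k)
  intro S hS
  rcases hS with rfl | hS
  · exact h0
  · rw [Set.mem_singleton_iff] at hS
    rw [hS]
    exact h1

/-- the bound for all `k ≥ 2` -/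
theorem final' (k : ℕ) (hk : 2 ≤ k) :
    (2 : ℝ) ^ ((k : ℝ) ^ (9 / 8 : ℝ) / (4 * 10 ^ 7)) ≤ (nk k : ℝ) := by
  have hkpos : (0 : ℝ) < k := by
    have : 0 < k := by omega
    exact_mod_cast this
  have h98 : (k : ℝ) ^ (9 / 8 : ℝ) = k * (k : ℝ) ^ (1 / 8 : ℝ) := by
    rw [show (9 / 8 : ℝ) = 1 + 1 / 8 by norm_num, Real.rpow_add hkpos, Real.rpow_one]
  by_cases hk2 : k < 20000
  · have h1 : (2 : ℝ) ≤ nk k := by exact_mod_cast two_le_nk k hk
    refine le_trans ?_ h1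
    have h2 : (k : ℝ) ^ (9 / 8 : ℝ) / (4 * 10 ^ 7) ≤ 1 := by
      have h3 : (k : ℝ) ≤ 20000 := by exact_mod_cast hk2.le
      have h4 : (k : ℝ) ^ (1 / 8 : ℝ) ≤ 2000 := by
        calc (k : ℝ) ^ (1 / 8 : ℝ) ≤ ((2000 : ℝ) ^ 8) ^ (1 / 8 : ℝ) :=
              Real.rpow_le_rpow hkpos.le (h3.trans (by norm_num)) (by norm_num)
          _ = 2000 := by
              rw [← Real.rpow_natCast, ← Real.rpow_mul (by norm_num)]
              norm_num
      rw [h98, div_le_one (by norm_num)]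
      calc (k : ℝ) * (k : ℝ) ^ (1 / 8 : ℝ) ≤ 20000 * 2000 := by gcongr
        _ ≤ 4 * 10 ^ 7 := by norm_num
    calc (2 : ℝ) ^ ((k : ℝ) ^ (9 / 8 : ℝ) / (4 * 10 ^ 7)) ≤ 2 ^ (1 : ℝ) :=
          Real.rpow_le_rpow_of_exponent_le (by norm_num) h2
      _ = 2 := Real.rpow_one 2
  · push Not at hk2
    obtain ⟨L, hL1, hL2⟩ : ∃ L, 20000 * 256 ^ L ≤ k ∧ k < 20000 * 256 ^ (L + 1) := by
      have h0 : k / 20000 ≠ 0 := by omega
      refine ⟨Nat.log 256 (k / 20000), ?_, ?_⟩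
      · have := Nat.pow_log_le_self 256 h0
        omega
      · have := Nat.lt_pow_succ_log_self (show 1 < 256 by norm_num) (k / 20000)
        omega
    have hb : ((2 : ℝ) ^ (512 ^ L : ℕ)) ≤ (nk k : ℝ) := by exact_mod_cast bound' k L hL1
    refine le_trans ?_ hb
    have hcast : ((2 : ℝ) ^ (512 ^ L : ℕ)) = (2 : ℝ) ^ (((512 ^ L : ℕ)) : ℝ) :=
      (Real.rpow_natCast _ _).symm
    rw [hcast]
    refine Real.rpow_le_rpow_of_exponent_le (by norm_num : (1 : ℝ) ≤ 2) ?_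
    have h6 : (k : ℝ) < 20000 * 256 ^ (L + 1) := by exact_mod_cast hL2
    have hk256 : (k : ℝ) ≤ 5120000 * 256 ^ L := by
      have : (20000 : ℝ) * 256 ^ (L + 1) = 5120000 * 256 ^ L := by rw [pow_succ]; ring
      linarith
    -- the eighth root
    have h4 : (k : ℝ) ^ (1 / 8 : ℝ) ≤ 2 ^ L * 7 := by
      have h5 : (k : ℝ) ≤ (2 ^ L * 7) ^ 8 := by
        have h7 : ((2 : ℝ) ^ L * 7) ^ 8 = 256 ^ L * 7 ^ 8 := by
          rw [mul_pow, ← pow_mul, mul_comm L 8, pow_mul]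
          norm_num
        rw [h7]
        have h8 : (0 : ℝ) < 256 ^ L := by positivity
        calc (k : ℝ) ≤ 5120000 * 256 ^ L := hk256
          _ = 256 ^ L * 5120000 := by ring
          _ ≤ 256 ^ L * 7 ^ 8 := by gcongr; norm_num
      calc (k : ℝ) ^ (1 / 8 : ℝ) ≤ (((2 : ℝ) ^ L * 7) ^ 8) ^ (1 / 8 : ℝ) :=
            Real.rpow_le_rpow hkpos.le h5 (by norm_num)
        _ = 2 ^ L * 7 := by
            rw [← Real.rpow_natCast, ← Real.rpow_mul (by positivity)]
            norm_num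
    rw [h98, div_le_iff₀ (by norm_num)]
    push_cast
    have h512 : (512 : ℝ) ^ L = 256 ^ L * 2 ^ L := by
      rw [← mul_pow]
      norm_num
    calc (k : ℝ) * (k : ℝ) ^ (1 / 8 : ℝ) ≤ (5120000 * 256 ^ L) * (2 ^ L * 7) := by gcongr
      _ = 35840000 * 512 ^ L := by rw [h512]; ring
      _ ≤ 512 ^ L * (4 * 10 ^ 7) := by
          have : (0 : ℝ) < 512 ^ L := by positivity
          nlinarith

end Pool.Agent.H57.KS
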