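import Mathlib

/-!
# Degree sequences with entries in a short interval are graphic
-/

set_option autoImplicit false

namespace Pool.Agent.H57.KS

open Finset

open Classical in
/-- indicator of a proposition -/
noncomputable def ind (P : Prop) : ℕ := if P then 1 else 0

lemma ind_t {P : Prop} (h : P) : ind P = 1 := by unfold ind; rw [if_pos h]
lemma ind_f {P : Prop} (h : ¬ P) : ind P = 0 := by unfold ind; rw [if_neg h]
lemma ind_le (P : Prop) : ind P ≤ 1 := by unfold ind; split_ifs <;> omega

lemma sum_ind_eq {V : Type} [Fintype V] (p : V) : (∑ y, ind (y = p)) = 1 := by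
  classical
  have h : ∀ y, ind (y = p) = if y = p then 1 else 0 := by
    intro y
    by_cases h : y = p
    · rw [ind_t h, if_pos h]
    · rw [ind_f h, if_neg h]
  simp only [h, Finset.sum_ite_eq', Finset.mem_univ, if_true]

/-- the degree of `v` -/
noncomputable def dg {V : Type} [Fintype V] (H : SimpleGraph V) (v : V) : ℕ :=
  ∑ w, ind (H.Adj v w)

open Classical in
lemma dg_eq_card {V : Type} [Fintype V] (H : SimpleGraph V) (v : V) :
    dg H v = (univ.filter (fun w => H.Adj v w)).card := by
  unfold dg ind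
  rw [Finset.card_filter]

/-- `{x, y} = {p, q}` -/
def Pr {V : Type} (p q x y : V) : Prop := (x = p ∧ y = q) ∨ (x = q ∧ y = p)

lemma Pr.symm {V : Type} {p q x y : V} (h : Pr p q x y) : Pr p q y x := by
  rcases h with h | h
  · exact Or.inr ⟨h.2, h.1⟩
  · exact Or.inl ⟨h.2, h.1⟩

lemma sum_ind_pr {V : Type} [Fintype V] (p q x : V) (hpq : p ≠ q) :
    (∑ y, ind (Pr p q x y)) = ind (x = p) + ind (x = q) := by
  have h : ∀ y, ind (Pr p q x y) = ind (x = p) * ind (y = q) + ind (x = q) * ind (y = p) := by
    intro y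
    by_cases h1 : x = p
    · have h2 : x ≠ q := fun h => hpq (h1.symm.trans h)
      rw [ind_t h1, ind_f h2, one_mul, zero_mul, add_zero]
      by_cases h3 : y = q
      · rw [ind_t h3, ind_t (show Pr p q x y from Or.inl ⟨h1, h3⟩)]
      · rw [ind_f h3, ind_f]
        rintro (h | h)
        · exact h3 h.2
        · exact h2 h.1
    · rw [ind_f h1, zero_mul, zero_add]
      by_cases h2 : x = q
      · rw [ind_t h2, one_mul]
        by_cases h3 : y = p
        · rw [ind_t h3, ind_t (show Pr p q x y from Or.inr ⟨h2, h3⟩)]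
        · rw [ind_f h3, ind_f]
          rintro (h | h)
          · exact h1 h.1
          · exact h3 h.2
      · rw [ind_f h2, zero_mul, ind_f]
        rintro (h | h)
        · exact h1 h.1
        · exact h2 h.1
  simp only [h, Finset.sum_add_distrib, ← Finset.mul_sum, sum_ind_eq, mul_one]

/-- adding an edge -/
lemma add_edge {V : Type} [Fintype V] (H : SimpleGraph V) (u v : V) (huv : u ≠ v)
    (hna : ¬ H.Adj u v) : ∃ H' : SimpleGraph V, ∀ x, dg H' x =
      dg H x + ind (x = u) + ind (x = v) := by
  let H' : SimpleGraph V :=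
    { Adj := fun x y => H.Adj x y ∨ Pr u v x y
      symm := ⟨by
        rintro x y (h | h)
        · exact Or.inl h.symm
        · exact Or.inr h.symm⟩
      loopless := ⟨by
        rintro x (h | h | h)
        · exact H.loopless.irrefl x h
        · exact huv (h.1.symm.trans h.2)
        · exact huv (h.2.symm.trans h.1)⟩ }
  refine ⟨H', fun x => ?_⟩
  have h : ∀ y, ind (H'.Adj x y) = ind (H.Adj x y) + ind (Pr u v x y) := by
    intro y
    by_cases hP : Pr u v x y
    · have h1 : ¬ H.Adj x y := by
        rcases hP with ⟨rfl, rfl⟩ | ⟨rfl, rfl⟩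
        · exact hna
        · exact fun h => hna h.symm
      rw [ind_t hP, ind_f h1, ind_t (show H'.Adj x y from Or.inr hP)]
    · rw [ind_f hP]
      by_cases hA : H.Adj x y
      · rw [ind_t hA, ind_t (show H'.Adj x y from Or.inl hA)]
      · rw [ind_f hA, ind_f]
        rintro (h | h)
        · exact hA h
        · exact hP h
  unfold dg
  simp only [h, Finset.sum_add_distrib, sum_ind_pr u v x huv]
  ring

/-- switching: replace the edge `ab` by `ua` and `vb` -/
lemma switch_edge {V : Type} [Fintype V] (H : SimpleGraph V) (u v a b : V) (hab : H.Adj a b)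
    (hau : a ≠ u) (hav : a ≠ v) (hbu : b ≠ u) (hbv : b ≠ v) (h1 : ¬ H.Adj u a)
    (h2 : ¬ H.Adj v b) : ∃ H' : SimpleGraph V, ∀ x, dg H' x =
      dg H x + ind (x = u) + ind (x = v) := by
  have habne : a ≠ b := hab.ne
  let H' : SimpleGraph V :=
    { Adj := fun x y => (H.Adj x y ∧ ¬ Pr a b x y) ∨ Pr u a x y ∨ Pr v b x y
      symm := ⟨by
        rintro x y (⟨h, h'⟩ | h | h)
        · exact Or.inl ⟨h.symm, fun h'' => h' h''.symm⟩
        · exact Or.inr (Or.inl h.symm)
        · exact Or.inr (Or.inr h.symm)⟩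
      loopless := ⟨by
        rintro x (⟨h, -⟩ | (h | h) | (h | h))
        · exact H.loopless.irrefl x h
        · exact hau (h.2.symm.trans h.1)
        · exact hau (h.1.symm.trans h.2)
        · exact hbv (h.2.symm.trans h.1)
        · exact hbv (h.1.symm.trans h.2)⟩ }
  refine ⟨H', fun x => ?_⟩
  have h : ∀ y, ind (H'.Adj x y) + ind (Pr a b x y) = ind (H.Adj x y) + ind (Pr u a x y) +
      ind (Pr v b x y) := by
    intro y
    have e1 : Pr a b x y → H.Adj x y := by
      rintro (⟨rfl, rfl⟩ | ⟨rfl, rfl⟩)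
      · exact hab
      · exact hab.symm
    have e2 : Pr u a x y → ¬ H.Adj x y := by
      rintro (⟨rfl, rfl⟩ | ⟨rfl, rfl⟩)
      · exact h1
      · exact fun h => h1 h.symm
    have e3 : Pr v b x y → ¬ H.Adj x y := by
      rintro (⟨rfl, rfl⟩ | ⟨rfl, rfl⟩)
      · exact h2
      · exact fun h => h2 h.symm
    have e4 : Pr u a x y → ¬ Pr v b x y := by
      rintro (⟨h3, h4⟩ | ⟨h3, h4⟩) (⟨h5, h6⟩ | ⟨h5, h6⟩)
      · exact habne (h4.symm.trans h6)
      · exact hbu (h5.symm.trans h3)
      · exact hav (h3.symm.trans h5)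
      · exact habne (h3.symm.trans h5)
    by_cases hX : Pr a b x y
    · have hA := e1 hX
      have hU : ¬ Pr u a x y := fun h => e2 h hA
      have hV : ¬ Pr v b x y := fun h => e3 h hA
      have hn : ¬ H'.Adj x y := by
        rintro (h | h | h)
        · exact h.2 hX
        · exact hU h
        · exact hV h
      rw [ind_f hn, ind_t hX, ind_t hA, ind_f hU, ind_f hV]
    · rw [ind_f hX]
      by_cases hU : Pr u a x y
      · rw [ind_t (show H'.Adj x y from Or.inr (Or.inl hU)), ind_f (e2 hU), ind_t hU,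
          ind_f (e4 hU)]
      · by_cases hV : Pr v b x y
        · rw [ind_t (show H'.Adj x y from Or.inr (Or.inr hV)), ind_f (e3 hV), ind_f hU,
            ind_t hV]
        · rw [ind_f hU, ind_f hV]
          by_cases hA : H.Adj x y
          · rw [ind_t (show H'.Adj x y from Or.inl ⟨hA, hX⟩), ind_t hA]
          · have hn : ¬ H'.Adj x y := by
              rintro (h | h | h)
              · exact hA h.1
              · exact hU h
              · exact hV h
            rw [ind_f hn, ind_f hA]
  have hs := Finset.sum_congr rfl (fun y (_ : y ∈ (univ : Finset V)) => h y)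
  simp only [Finset.sum_add_distrib, sum_ind_pr a b x habne, sum_ind_pr u a x hau.symm,
    sum_ind_pr v b x hbv.symm] at hs
  unfold dg
  omega

open Classical in
/-- an edge outside a small set -/
lemma edge_outside {V : Type} [Fintype V] (H : SimpleGraph V) (F δ : ℕ) (W : Finset V)
    (hW : W.card ≤ 2 * F) (hF : ∀ v, dg H v ≤ F) (hδ : ∀ a ∉ W, δ ≤ dg H a)
    (hcard : 2 * F ^ 2 + 2 * F * δ < Fintype.card V * δ) : ∃ a b, a ∉ W ∧ b ∉ W ∧ H.Adj a b := by
  by_contra hcon
  push Not at hcon
  have h1 : ∀ a ∈ Wᶜ, dg H a = ∑ w ∈ W, ind (H.Adj a w) := by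
    intro a ha
    unfold dg
    rw [← Finset.sum_add_sum_compl W]
    have : ∑ w ∈ Wᶜ, ind (H.Adj a w) = 0 :=
      Finset.sum_eq_zero fun w hw => ind_f (hcon a w (Finset.mem_compl.1 ha)
        (Finset.mem_compl.1 hw))
    rw [this, add_zero]
  have h2 : ∑ a ∈ Wᶜ, dg H a ≤ ∑ w ∈ W, dg H w := by
    rw [Finset.sum_congr rfl h1, Finset.sum_comm]
    refine Finset.sum_le_sum fun w _ => ?_
    unfold dg
    have : ∑ a ∈ Wᶜ, ind (H.Adj a w) = ∑ a ∈ Wᶜ, ind (H.Adj w a) := by
      refine Finset.sum_congr rfl fun a _ => ?_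
      congr 1
      exact propext ⟨fun h => h.symm, fun h => h.symm⟩
    rw [this]
    exact Finset.sum_le_sum_of_subset (Finset.subset_univ _)
  have h3 : ∑ w ∈ W, dg H w ≤ W.card * F := by
    refine (Finset.sum_le_card_nsmul _ _ F fun v _ => hF v).trans ?_
    rw [smul_eq_mul]
  have h4 : Wᶜ.card * δ ≤ ∑ a ∈ Wᶜ, dg H a := by
    have := Finset.card_nsmul_le_sum Wᶜ (fun a => dg H a) δ (fun a ha =>
      hδ a (Finset.mem_compl.1 ha))
    rwa [smul_eq_mul] at this
  have h5 : Wᶜ.card + W.card = Fintype.card V := by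
    rw [Finset.card_compl]
    have := Finset.card_le_univ W
    omega
  have h6 : W.card * F ≤ 2 * F * F := Nat.mul_le_mul_right _ hW
  have h7 : W.card * δ ≤ 2 * F * δ := Nat.mul_le_mul_right _ hW
  have h8 : Fintype.card V * δ = Wᶜ.card * δ + W.card * δ := by rw [← h5, add_mul]
  nlinarith

/-- one step -/
lemma step {V : Type} [Fintype V] (f : V → ℕ) (F δ : ℕ) (hf1 : ∀ v, δ ≤ f v)
    (hF : ∀ v, f v ≤ F) (hcard : 2 * F ^ 2 + 2 * F * δ < Fintype.card V * δ)
    (H : SimpleGraph V) (hle : ∀ v, dg H v ≤ f v) (hlt : ∑ v, dg H v + 2 ≤ ∑ v, f v) :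
    ∃ H' : SimpleGraph V, (∀ v, dg H' v ≤ f v) ∧ ∑ v, dg H' v = ∑ v, dg H v + 2 := by
  classical
  -- a suitable pair
  have key : ∀ u v : V, (∀ x, dg H x + ind (x = u) + ind (x = v) ≤ f x) →
      (∃ H' : SimpleGraph V, ∀ x, dg H' x = dg H x + ind (x = u) + ind (x = v)) →
      ∃ H' : SimpleGraph V, (∀ v, dg H' v ≤ f v) ∧ ∑ v, dg H' v = ∑ v, dg H v + 2 := by
    rintro u v h1 ⟨H', h2⟩
    refine ⟨H', fun x => by rw [h2]; exact h1 x, ?_⟩
    simp only [h2, Finset.sum_add_distrib, sum_ind_eq]
  by_cases hA : ∃ u v, u ≠ v ∧ dg H u < f u ∧ dg H v < f v ∧ ¬ H.Adj u v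
  · obtain ⟨u, v, huv, hu, hv, hna⟩ := hA
    refine key u v (fun x => ?_) (add_edge H u v huv hna)
    by_cases h1 : x = u
    · subst h1
      rw [ind_t rfl, ind_f huv]
      omega
    · by_cases h2 : x = v
      · subst h2
        rw [ind_t rfl, ind_f h1]
        omega
      · rw [ind_f h1, ind_f h2]
        exact hle x
  · push Not at hA
    -- a pair
    obtain ⟨u, v, hu, huv⟩ : ∃ u v : V, dg H u < f u ∧
        ∀ x, dg H x + ind (x = u) + ind (x = v) ≤ f x := by
      obtain ⟨u, -, hu⟩ : ∃ u ∈ (univ : Finset V), dg H u < f u := by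
        apply Finset.exists_lt_of_sum_lt
        omega
      by_cases hu2 : dg H u + 2 ≤ f u
      · refine ⟨u, u, hu, fun x => ?_⟩
        by_cases h1 : x = u
        · subst h1
          rw [ind_t rfl]
          omega
        · rw [ind_f h1]
          exact hle x
      · have hex : ∃ v ∈ (univ : Finset V).erase u, dg H v < f v := by
          apply Finset.exists_lt_of_sum_lt
          have e1 := Finset.add_sum_erase univ (fun v => dg H v) (Finset.mem_univ u)
          have e2 := Finset.add_sum_erase univ (fun v => f v) (Finset.mem_univ u)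
          omega
        obtain ⟨v, hv1, hv⟩ := hex
        have hvu : v ≠ u := (Finset.mem_erase.1 hv1).1
        refine ⟨u, v, hu, fun x => ?_⟩
        by_cases h1 : x = u
        · subst h1
          rw [ind_t rfl, ind_f hvu.symm]
          omega
        · by_cases h2 : x = v
          · subst h2
            rw [ind_t rfl, ind_f h1]
            omega
          · rw [ind_f h1, ind_f h2]
            exact hle x
    have hv : dg H v < f v := by
      have := huv v
      rw [ind_t (rfl : v = v)] at this
      omega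
    -- the set W
    let N : V → Finset V := fun x => univ.filter (fun w => H.Adj x w)
    have hN : ∀ x, (N x).card = dg H x := by
      intro x
      rw [dg_eq_card]
    let W : Finset V := (insert u (N u)) ∪ (insert v (N v))
    have hW : W.card ≤ 2 * F := by
      have c1 : (insert u (N u)).card ≤ F := by
        refine (Finset.card_insert_le _ _).trans ?_
        rw [hN]
        have := hF u
        omega
      have c2 : (insert v (N v)).card ≤ F := by
        refine (Finset.card_insert_le _ _).trans ?_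
        rw [hN]
        have := hF v
        omega
      refine (Finset.card_union_le _ _).trans ?_
      omega
    have hadjW : ∀ w, H.Adj u w → w ∈ W := fun w hw => Finset.mem_union_left _
      (Finset.mem_insert_of_mem (Finset.mem_filter.2 ⟨Finset.mem_univ _, hw⟩))
    have hadjW' : ∀ w, H.Adj v w → w ∈ W := fun w hw => Finset.mem_union_right _
      (Finset.mem_insert_of_mem (Finset.mem_filter.2 ⟨Finset.mem_univ _, hw⟩))
    have huW : u ∈ W := Finset.mem_union_left _ (Finset.mem_insert_self _ _)
    have hvW : v ∈ W := Finset.mem_union_right _ (Finset.mem_insert_self _ _)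
    have hsat : ∀ a ∉ W, δ ≤ dg H a := by
      intro a haW
      have hau : a ≠ u := fun h => haW (by rw [h]; exact huW)
      have : dg H a = f a := by
        by_contra hne
        have hlt' : dg H a < f a := lt_of_le_of_ne (hle a) hne
        exact haW (hadjW a (hA u a hau.symm hu hlt'))
      rw [this]
      exact hf1 a
    obtain ⟨a, b, haW, hbW, hab⟩ := edge_outside H F δ W hW (fun v => (hle v).trans (hF v)) hsat
      hcard
    have hau : a ≠ u := fun h => haW (by rw [h]; exact huW)
    have hav : a ≠ v := fun h => haW (by rw [h]; exact hvW)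
    have hbu : b ≠ u := fun h => hbW (by rw [h]; exact huW)
    have hbv : b ≠ v := fun h => hbW (by rw [h]; exact hvW)
    exact key u v huv (switch_edge H u v a b hab hau hav hbu hbv
      (fun h => haW (hadjW a h)) (fun h => hbW (hadjW' b h)))

/-- Degree sequences with entries in an interval `[δ, F]` are graphic, if there are enough
vertices. -/
theorem exists_graph {V : Type} [Fintype V] (f : V → ℕ) (F δ : ℕ) (hf1 : ∀ v, δ ≤ f v)
    (hF : ∀ v, f v ≤ F) (hcard : 2 * F ^ 2 + 2 * F * δ < Fintype.card V * δ)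
    (heven : Even (∑ v, f v)) : ∃ H : SimpleGraph V, ∀ v, dg H v = f v := by
  have hind : ∀ j : ℕ, 2 * j ≤ ∑ v, f v → ∃ H : SimpleGraph V, (∀ v, dg H v ≤ f v) ∧
      ∑ v, dg H v = 2 * j := by
    intro j
    induction j with
    | zero =>
      intro _
      have h0 : ∀ v, dg (⊥ : SimpleGraph V) v = 0 := by
        intro v
        unfold dg
        refine Finset.sum_eq_zero fun w _ => ind_f ?_
        simp
      refine ⟨⊥, fun v => ?_, ?_⟩
      · rw [h0]; exact Nat.zero_le _
      · simp [h0]
    | succ j ih =>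
      intro hj
      obtain ⟨H, h1, h2⟩ := ih (by omega)
      obtain ⟨H', h3, h4⟩ := step f F δ hf1 hF hcard H h1 (by omega)
      exact ⟨H', h3, by omega⟩
  obtain ⟨j, hj⟩ := heven
  obtain ⟨H, h1, h2⟩ := hind j (by omega)
  refine ⟨H, fun v => ?_⟩
  have h3 : ∑ v, dg H v = ∑ v, f v := by omega
  exact (Finset.sum_eq_sum_iff_of_le (fun i _ => h1 i)).1 h3 v (Finset.mem_univ v)

end Pool.Agent.H57.KS
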