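import Pool.Agent.H57.KS.Gad
import Pool.Agent.H57.KS.Cnt

/-!
# The spectrum of a union of gadgets
-/

set_option autoImplicit false

namespace Pool.Agent.H57.KS

open Finset

lemma slice_single {ι : Type} [Fintype ι] [DecidableEq ι] (k : ℕ) (i : ι) :
    slice (({i} : Finset ι) ×ˢ (univ : Finset (Fin k))) i = univ := by
  unfold slice
  ext v
  simp

/-- the analysis of the `k`-sets of the union -/
theorem analysis (k L b D : ℕ) (hk : 256 * 1024 ^ L ≤ k) (hD : 2 * D ≤ k * 4 ^ L)
    (hb : 2 * b + 2 * (k * PP L) + 2 * D = k * (k - 1)) {ι : Type} [Fintype ι] [DecidableEq ι]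
    (zz : ι → ℕ) (hz : ∀ i, b ≤ zz i ∧ zz i < b + D ∧ inG L (zz i : ℤ)) :
    ∃ J : ι → SimpleGraph (Fin k),
      (∀ i, ∃ K : Finset (ι × Fin k), K.card = k ∧ spans (dun J) K = zz i) ∧
      ∀ K : Finset (ι × Fin k), K.card = k → b ≤ spans (dun J) K →
        inG L (spans (dun J) K : ℤ) → ∃ i, spans (dun J) K = zz i := by
  have hP := PP_eq L
  set P := PP L with hPdef
  have hP0 : 0 < P := PP_pos L
  have hE : 4 ^ L ≤ 1024 ^ L := Nat.pow_le_pow_left (by norm_num) L
  have hE1 : 1 ≤ 4 ^ L := Nat.one_le_pow _ _ (by norm_num)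
  set E := 4 ^ L with hEdef
  have hkP : 64 * P ≤ k := by rw [hP]; omega
  have hEP : 4 * E ≤ P := by rw [hP]; omega
  have hk0 : 0 < k := by omega
  -- the gadgets
  have hex : ∀ i, ∃ (J : SimpleGraph (Fin k)) (f : Fin k → ℕ), spans J univ = zz i ∧
      (∀ v, dg J v + f v = k - 1) ∧ (∀ v, f v ≤ 4 * P) ∧
      ∀ (R : Finset (Fin k)) (t N : ℕ), 1 ≤ R.card → R.card < E → t ≤ R.card * (R.card - 1) →
        N + R.card * (k - 1) = zz i + ∑ v ∈ R, f v + t → ¬ inG L (N : ℤ) := by
    intro i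
    obtain ⟨hz1, hz2, hz3⟩ := hz i
    obtain ⟨η, hη⟩ := inG_slope L (zz i : ℤ) hz3
    obtain ⟨x, hx⟩ : ∃ x, zz i + x = b + k * P + D := ⟨b + k * P + D - zz i, by omega⟩
    obtain ⟨J, f, y, h1, h2, h3, h4, j, h5⟩ := gadget k P E (4 * P) (zz i) x hP0 (by omega)
      (by nlinarith) (by omega) (by omega) (by rw [mul_add]; nlinarith) (η + ((k - 1 : ℕ) : ℤ))
    refine ⟨J, f, h1, h2, h3, fun R t N hR1 hR2 ht hN hcon => ?_⟩
    obtain ⟨i', hi', s, hs⟩ := h4 R
    rw [hs] at hN
    set m := R.card with hm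
    have hNz : (N : ℤ) + m * ((k - 1 : ℕ) : ℤ) = zz i + (m * y + i' + P * s) + t := by
      exact_mod_cast hN
    have hNe : (N : ℤ) = zz i + m * η + ((i' : ℤ) + t) + P * ((s : ℤ) + m * j) := by
      rw [h5] at hNz
      linear_combination hNz
    have hmm : m * (m - 1) + m = m ^ 2 := by
      obtain ⟨m', hm'⟩ : ∃ m', m = m' + 1 := ⟨m - 1, by omega⟩
      rw [hm', Nat.add_sub_cancel]
      ring
    have hit : i' + t ≤ m ^ 2 := by omega
    rw [hNe] at hcon
    refine hη (m : ℤ) ((i' : ℤ) + t) ((s : ℤ) + m * j) (by exact_mod_cast hR1)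
      (by exact_mod_cast hR2) (by positivity) (by exact_mod_cast hit) hcon
  choose J f hJ1 hJ2 hJ3 hJ4 using hex
  refine ⟨J, fun i => ?_, fun K hK hbN hG => ?_⟩
  · refine ⟨({i} : Finset ι) ×ˢ (univ : Finset (Fin k)), ?_, ?_⟩
    · rw [card_product, card_singleton, card_univ, Fintype.card_fin, one_mul]
    · obtain ⟨t, ht, h⟩ := comp k J f hJ2 (({i} : Finset ι) ×ˢ (univ : Finset (Fin k)))
        (by rw [card_product, card_singleton, card_univ, Fintype.card_fin, one_mul]) i
      rw [slice_single, Finset.card_univ, Fintype.card_fin, Nat.sub_self, zero_mul] at ht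
      rw [slice_single, Finset.card_univ, Fintype.card_fin, Nat.sub_self, zero_mul,
        Finset.compl_univ, Finset.sum_empty, hJ1] at h
      omega
  · set N := spans (dun J) K with hN
    set c := 2 * P + E + 1 with hc
    by_cases hall : ∀ i, (slice K i).card ≤ k - c
    · exfalso
      have h1 := nolarge k c J K hK hall
      rw [← hN] at h1
      have h2 : k * (k - c) ≤ 2 * b := by
        have h3 : k * (k - c) + k * (2 * P + E) = k * (k - 1) := by
          rw [← mul_add]
          congr 1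
          omega
        have h4 : k * (2 * P + E) = 2 * (k * P) + k * E := by ring
        omega
      have h5 : k * (k - c - 1) + k = k * (k - c) := by
        have : k - c = (k - c - 1) + 1 := by omega
        rw [this, mul_add, mul_one]
        congr 2
      omega
    · push Not at hall
      obtain ⟨i, hi⟩ := hall
      obtain ⟨t, ht, h⟩ := comp k J f hJ2 K hK i
      have hsl : (slice K i).card ≤ k := by
        have := Finset.card_le_univ (slice K i)
        rwa [Fintype.card_fin] at this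
      have hmc : (slice K i)ᶜ.card = k - (slice K i).card := by
        rw [card_compl, Fintype.card_fin]
      rw [← hN, hJ1] at h
      rw [← hmc] at ht h
      set m := (slice K i)ᶜ.card with hm
      have hmltc : m < c := by omega
      rcases Nat.eq_zero_or_pos m with hm0 | hmpos
      · refine ⟨i, ?_⟩
        have hem : (slice K i)ᶜ = ∅ := Finset.card_eq_zero.1 hm0
        rw [hem, Finset.sum_empty, hm0, zero_mul] at h
        rw [hm0] at ht
        omega
      · exfalso
        by_cases hmE : m < E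
        · exact hJ4 i (slice K i)ᶜ t N hmpos hmE ht h hG
        · push Not at hmE
          have hsum : ∑ v ∈ (slice K i)ᶜ, f i v ≤ m * (4 * P) := by
            refine (Finset.sum_le_card_nsmul _ _ (4 * P) fun v _ => hJ3 i v).trans ?_
            rw [smul_eq_mul]
          have hz2 := (hz i).2.1
          have hmm : m * (m - 1) + m = m * m := by
            obtain ⟨m', hm'⟩ : ∃ m', m = m' + 1 := ⟨m - 1, by omega⟩
            rw [hm', Nat.add_sub_cancel]
            ring
          have hmk : m * (k - 1) + m = m * k := by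
            obtain ⟨k', hk'⟩ : ∃ k', k = k' + 1 := ⟨k - 1, by omega⟩
            rw [hk', Nat.add_sub_cancel]
            ring
          have h6 : m * k < D + m * (4 * P) + m * m := by omega
          have h7 : m * m ≤ m * c := Nat.mul_le_mul_left _ hmltc.le
          have h8 : m * (8 * P + 2 * c) ≤ m * k := Nat.mul_le_mul_left _ (by omega)
          have h9 : m * k < k * E := by nlinarith
          have h10 : k * E ≤ m * k := by
            rw [mul_comm k E]
            exact Nat.mul_le_mul_right _ hmE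
          omega

/-- the `k`-spectrum of a graph -/
def kSpectrum {V : Type} (k : ℕ) (G : SimpleGraph V) : Set ℕ :=
  {q | ∃ K : Finset V, K.card = k ∧ spans G K = q}

/-- the realizable `k`-spectra -/
def realizable (k : ℕ) : Set (Set ℕ) :=
  {S | ∃ (n : ℕ) (G : SimpleGraph (Fin n)), k ≤ n ∧ S = kSpectrum k G}

lemma spans_map {V W : Type} (e : V ≃ W) (G : SimpleGraph V) (K : Finset V) :
    spans (G.comap e.symm) (K.map e.toEmbedding) = spans G K := by
  have h : e2 (G.comap e.symm) (K.map e.toEmbedding) = e2 G K := by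
    unfold e2
    rw [Finset.sum_map]
    refine Finset.sum_congr rfl fun u _ => ?_
    rw [Finset.sum_map]
    refine Finset.sum_congr rfl fun v _ => ?_
    congr 1
    simp
  rw [e2_eq, e2_eq] at h
  omega

lemma kSpectrum_map {V W : Type} (e : V ≃ W) (k : ℕ) (G : SimpleGraph V) :
    kSpectrum k (G.comap e.symm) = kSpectrum k G := by
  ext q
  constructor
  · rintro ⟨K, hK, hq⟩
    refine ⟨K.map e.symm.toEmbedding, by rw [card_map]; exact hK, ?_⟩
    rw [← hq, ← spans_map e G]
    congr 1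
    rw [Finset.map_map]
    convert Finset.map_refl
    ext x
    simp
  · rintro ⟨K, hK, hq⟩
    exact ⟨K.map e.toEmbedding, by rw [card_map]; exact hK, by rw [spans_map]; exact hq⟩

lemma realizable_of {V : Type} [Fintype V] (k : ℕ) (G : SimpleGraph V)
    (h : k ≤ Fintype.card V) : kSpectrum k G ∈ realizable k :=
  ⟨Fintype.card V, G.comap (Fintype.equivFin V).symm, h, (kSpectrum_map _ k G).symm⟩

lemma realizable_finite (k : ℕ) : (realizable k).Finite := by
  refine Set.Finite.subset (Set.finite_Iic (k * (k - 1))).finite_subsets ?_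
  rintro S ⟨n, G, -, rfl⟩ q ⟨K, hK, hq⟩
  have h1 := e2_le G K
  rw [e2_eq, hK, hq] at h1
  rw [Set.mem_Iic]
  omega

open Classical in
/-- many spectra -/
theorem many (k L b D : ℕ) (hk : 256 * 1024 ^ L ≤ k) (hD : 2 * D ≤ k * 4 ^ L)
    (hb : 2 * b + 2 * (k * PP L) + 2 * D = k * (k - 1)) :
    2 ^ ((Ico b (b + D)).filter (fun g : ℕ => inG L (g : ℤ))).card ≤ (realizable k).ncard := by
  set Q := (Ico b (b + D)).filter (fun g : ℕ => inG L (g : ℤ)) with hQ
  have hmem : ∀ q, q ∈ Q ↔ (b ≤ q ∧ q < b + D) ∧ inG L (q : ℤ) := by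
    intro q
    rw [hQ, mem_filter, mem_Ico]
  have hb0 : 0 < b := by
    have hP := PP_eq L
    have hE : 4 ^ L ≤ 1024 ^ L := Nat.pow_le_pow_left (by norm_num) L
    have hE1 : 1 ≤ 4 ^ L := Nat.one_le_pow _ _ (by norm_num)
    have hkP : 64 * PP L ≤ k := by rw [hP]; omega
    have hk0 : 0 < k := by omega
    have h1 : k * (2 * PP L + 4 ^ L + 1) ≤ k * (k - 1) := Nat.mul_le_mul_left _ (by omega)
    have h2 : k * (2 * PP L + 4 ^ L + 1) = 2 * (k * PP L) + k * 4 ^ L + k := by ring
    omega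
  have key : ∀ Y : Finset ℕ, Y ⊆ Q → ∃ S ∈ realizable k, ∀ q ∈ Q, q ∈ S ↔ q ∈ Y := by
    intro Y hY
    rcases Finset.eq_empty_or_nonempty Y with rfl | hne
    · refine ⟨kSpectrum k (⊥ : SimpleGraph (Fin k)),
        realizable_of k _ (by rw [Fintype.card_fin]), fun q hq => ?_⟩
      constructor
      · rintro ⟨K, -, hKq⟩
        exfalso
        have h0 : e2 (⊥ : SimpleGraph (Fin k)) K = 0 := by
          unfold e2
          exact Finset.sum_eq_zero fun u _ => Finset.sum_eq_zero fun v _ => ind_f (by simp)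
        rw [e2_eq, hKq] at h0
        have := ((hmem q).1 hq).1.1
        omega
      · intro h
        exact absurd h (Finset.notMem_empty q)
    · obtain ⟨J, hJ1, hJ2⟩ := analysis k L b D hk hD hb (ι := ↥Y) (fun i => (i : ℕ)) (by
        intro i
        have := (hmem _).1 (hY i.2)
        exact ⟨this.1.1, this.1.2, this.2⟩)
      refine ⟨kSpectrum k (dun J), realizable_of k _ ?_, fun q hq => ?_⟩
      · rw [Fintype.card_prod, Fintype.card_fin, Fintype.card_coe]
        exact Nat.le_mul_of_pos_left _ (Finset.card_pos.2 hne)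
      · have hq' := (hmem q).1 hq
        constructor
        · rintro ⟨K, hK, rfl⟩
          obtain ⟨i, hi⟩ := hJ2 K hK hq'.1.1 hq'.2
          rw [hi]
          exact i.2
        · intro h
          obtain ⟨K, hK, hKq⟩ := hJ1 ⟨q, h⟩
          exact ⟨K, hK, hKq⟩
  choose! Φ hΦ1 hΦ2 using key
  have hinj : Set.InjOn Φ (↑(Q.powerset) : Set (Finset ℕ)) := by
    intro Y hY Y' hY' heq
    rw [Finset.mem_coe, mem_powerset] at hY hY'
    ext q
    constructor
    · intro hq
      rw [← hΦ2 Y' hY' q (hY hq), ← heq, hΦ2 Y hY q (hY hq)]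
      exact hq
    · intro hq
      rw [← hΦ2 Y hY q (hY' hq), heq, hΦ2 Y' hY' q (hY' hq)]
      exact hq
  rw [← Finset.card_powerset, ← Set.ncard_coe_finset, ← hinj.ncard_image]
  refine Set.ncard_le_ncard ?_ (realizable_finite k)
  rintro S ⟨Y, hY, rfl⟩
  rw [Finset.mem_coe, mem_powerset] at hY
  exact hΦ1 Y hY

/-- the bound for `k ≥ 256 · 1024 ^ L` -/
theorem bound (k L : ℕ) (hk : 256 * 1024 ^ L ≤ k) :
    ∃ s : ℕ, k * 2 ^ L ≤ 9 * s ∧ 2 ^ s ≤ (realizable k).ncard := by
  classical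
  have hP := PP_eq L
  have hE : 4 ^ L ≤ 1024 ^ L := Nat.pow_le_pow_left (by norm_num) L
  have hE1 : 1 ≤ 4 ^ L := Nat.one_le_pow _ _ (by norm_num)
  have hkP : 64 * PP L ≤ k := by rw [hP]; omega
  set D := k * 4 ^ L / 2 with hDdef
  have hD : 2 * D ≤ k * 4 ^ L := by omega
  obtain ⟨h, hh⟩ : ∃ h, k * (k - 1) = 2 * h := by
    have := Nat.even_mul_pred_self k
    obtain ⟨h, hh⟩ := this
    exact ⟨h, by omega⟩
  have hle : 2 * (k * PP L) + 2 * D ≤ k * (k - 1) := by
    have h1 : k * (2 * PP L + 4 ^ L + 1) ≤ k * (k - 1) := Nat.mul_le_mul_left _ (by omega)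
    have h2 : k * (2 * PP L + 4 ^ L + 1) = 2 * (k * PP L) + k * 4 ^ L + k := by ring
    omega
  obtain ⟨b, hb⟩ : ∃ b, 2 * b + 2 * (k * PP L) + 2 * D = k * (k - 1) :=
    ⟨h - k * PP L - D, by omega⟩
  refine ⟨_, ?_, many k L b D hk hD hb⟩
  have hsub : (Ico b (b + D / PP L * PP L)).filter (fun g : ℕ => inG L (g : ℤ)) ⊆
      (Ico b (b + D)).filter (fun g : ℕ => inG L (g : ℤ)) := by
    refine Finset.filter_subset_filter _ (Finset.Ico_subset_Ico_right ?_)
    have := Nat.div_mul_le_self D (PP L)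
    omega
  have hcnt := (count_interval L b (D / PP L)).trans (Finset.card_le_card hsub)
  have hq : D / PP L = k / (8 * 256 ^ L) := by
    rw [hDdef, hP, Nat.div_div_eq_div_mul]
    have : 2 * (4 * 1024 ^ L) = 8 * 256 ^ L * 4 ^ L := by
      have h1 : (1024 : ℕ) ^ L = 256 ^ L * 4 ^ L := by
        rw [← mul_pow]
        norm_num
      rw [h1]
      ring
    rw [this, Nat.mul_div_mul_right _ _ (by positivity)]
  rw [hq] at hcnt
  have h256 : (256 : ℕ) ^ L ≤ 1024 ^ L := Nat.pow_le_pow_left (by norm_num) L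
  have hpos : 0 < 8 * 256 ^ L := by positivity
  have hlt := Nat.lt_mul_div_succ k hpos
  set q := k / (8 * 256 ^ L) with hqdef
  have h512 : (512 : ℕ) ^ L = 256 ^ L * 2 ^ L := by
    rw [← mul_pow]
    norm_num
  rw [h512] at hcnt
  have h1 : 8 * k ≤ 9 * (8 * 256 ^ L * q) := by
    rw [mul_add, mul_one] at hlt
    omega
  have h2 : 8 * k * 2 ^ L ≤ 9 * (8 * 256 ^ L * q) * 2 ^ L := Nat.mul_le_mul_right _ h1
  have h3 : 9 * (8 * 256 ^ L * q) * 2 ^ L = 72 * (q * (256 ^ L * 2 ^ L)) := by ring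
  have h4 : 8 * k * 2 ^ L = 8 * (k * 2 ^ L) := by ring
  omega

/-- the bound in terms of `k` only -/
theorem final (k : ℕ) (hk : 256 ≤ k) :
    (k : ℝ) ^ (11 / 10 : ℝ) / 32 ≤ Real.logb 2 ((realizable k).ncard : ℝ) := by
  obtain ⟨L, hL1, hL2⟩ : ∃ L, 256 * 1024 ^ L ≤ k ∧ k < 256 * 1024 ^ (L + 1) := by
    have h0 : k / 256 ≠ 0 := by omega
    refine ⟨Nat.log 1024 (k / 256), ?_, ?_⟩
    · have := Nat.pow_log_le_self 1024 h0
      omega
    · have := Nat.lt_pow_succ_log_self (show 1 < 1024 by norm_num) (k / 256)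
      omega
  obtain ⟨s, hs1, hs2⟩ := bound k L hL1
  have hkpos : (0 : ℝ) < k := by
    have : 0 < k := by omega
    exact_mod_cast this
  -- the logarithm
  have h1 : (s : ℝ) ≤ Real.logb 2 ((realizable k).ncard : ℝ) := by
    have h2 : ((2 : ℝ) ^ s) ≤ ((realizable k).ncard : ℝ) := by exact_mod_cast hs2
    rw [Real.le_logb_iff_rpow_le (by norm_num) (lt_of_lt_of_le (by positivity) h2),
      Real.rpow_natCast]
    exact h2
  refine le_trans ?_ h1
  have h3 : (k : ℝ) * 2 ^ L ≤ 9 * s := by exact_mod_cast hs1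
  -- the tenth root
  have h4 : (k : ℝ) ^ (1 / 10 : ℝ) ≤ 2 ^ L * (32 / 9) := by
    have h5 : (k : ℝ) ≤ (2 ^ L * (32 / 9)) ^ 10 := by
      have h6 : (k : ℝ) < 256 * 1024 ^ (L + 1) := by exact_mod_cast hL2
      have h7 : ((2 : ℝ) ^ L * (32 / 9)) ^ 10 = 1024 ^ L * (32 / 9) ^ 10 := by
        rw [mul_pow, ← pow_mul, mul_comm L 10, pow_mul]
        norm_num
      rw [h7]
      have h8 : (0 : ℝ) < 1024 ^ L := by positivity
      have h9 : (256 * 1024 : ℝ) ≤ (32 / 9) ^ 10 := by norm_num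
      calc (k : ℝ) ≤ 256 * 1024 ^ (L + 1) := h6.le
        _ = 1024 ^ L * (256 * 1024) := by rw [pow_succ]; ring
        _ ≤ 1024 ^ L * (32 / 9) ^ 10 := by gcongr
    calc (k : ℝ) ^ (1 / 10 : ℝ) ≤ (((2 : ℝ) ^ L * (32 / 9)) ^ 10) ^ (1 / 10 : ℝ) :=
          Real.rpow_le_rpow hkpos.le h5 (by norm_num)
      _ = 2 ^ L * (32 / 9) := by
          rw [← Real.rpow_natCast, ← Real.rpow_mul (by positivity)]
          norm_num
  have h10 : (k : ℝ) ^ (11 / 10 : ℝ) = k * (k : ℝ) ^ (1 / 10 : ℝ) := by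
    rw [show (11 / 10 : ℝ) = 1 + 1 / 10 by norm_num, Real.rpow_add hkpos, Real.rpow_one]
  rw [h10]
  have h11 : (k : ℝ) * (k : ℝ) ^ (1 / 10 : ℝ) ≤ k * (2 ^ L * (32 / 9)) := by gcongr
  have h12 : (k : ℝ) * (2 ^ L * (32 / 9)) = 32 / 9 * (k * 2 ^ L) := by ring
  rw [h12] at h11
  linarith

end Pool.Agent.H57.KS
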