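import Pool.Agent.H57.KS.Deg

/-!
# Edges spanned by a vertex set; disjoint unions
-/

set_option autoImplicit false

namespace Pool.Agent.H57.KS

open Finset

/-- the number of edges of `G` spanned by the vertex set `K` -/
noncomputable def spans {V : Type} (G : SimpleGraph V) (K : Finset V) : ℕ :=
  (G.induce (K : Set V)).edgeSet.ncard

/-- twice the number of edges spanned by `K` -/
noncomputable def e2 {V : Type} (G : SimpleGraph V) (K : Finset V) : ℕ :=
  ∑ u ∈ K, ∑ v ∈ K, ind (G.Adj u v)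

lemma e2_eq {V : Type} (G : SimpleGraph V) (K : Finset V) : e2 G K = 2 * spans G K := by
  classical
  have h := (G.induce (K : Set V)).sum_degrees_eq_twice_card_edges
  have h1 : (G.induce (K : Set V)).edgeSet.ncard = (G.induce (K : Set V)).edgeFinset.card := by
    rw [← SimpleGraph.coe_edgeFinset, Set.ncard_coe_finset]
  unfold spans
  rw [h1, ← h]
  unfold e2
  rw [← Finset.sum_coe_sort K (fun u => ∑ v ∈ K, ind (G.Adj u v))]
  refine Finset.sum_congr rfl fun u _ => ?_
  rw [← Finset.sum_coe_sort K (fun v => ind (G.Adj u v)), ← SimpleGraph.card_neighborFinset_eq_degree,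
    SimpleGraph.neighborFinset_eq_filter, Finset.card_filter]
  refine Finset.sum_congr rfl fun v _ => ?_
  by_cases hA : G.Adj u v
  · rw [ind_t hA, if_pos]
    exact hA
  · rw [ind_f hA, if_neg]
    exact hA

lemma e2_le {V : Type} (G : SimpleGraph V) (K : Finset V) : e2 G K ≤ K.card * (K.card - 1) := by
  classical
  unfold e2
  have h : ∀ u ∈ K, ∑ v ∈ K, ind (G.Adj u v) ≤ K.card - 1 := by
    intro u hu
    rw [← Finset.add_sum_erase K _ hu, ind_f (G.loopless.irrefl u), zero_add,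
      ← Finset.card_erase_of_mem hu]
    refine (Finset.sum_le_card_nsmul _ _ 1 fun v _ => ind_le _).trans ?_
    simp
  refine (Finset.sum_le_card_nsmul _ _ _ h).trans ?_
  simp

lemma e2_compl {V : Type} [Fintype V] [DecidableEq V] (J : SimpleGraph V) (B : Finset V) :
    e2 J univ + e2 J Bᶜ = e2 J B + 2 * ∑ u ∈ Bᶜ, dg J u := by
  have h1 : e2 J univ = ∑ u ∈ B, dg J u + ∑ u ∈ Bᶜ, dg J u := by
    unfold e2 dg
    rw [Finset.sum_add_sum_compl]
  have h2 : ∑ u ∈ B, dg J u = e2 J B + ∑ u ∈ B, ∑ v ∈ Bᶜ, ind (J.Adj u v) := by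
    unfold e2 dg
    rw [← Finset.sum_add_distrib]
    refine Finset.sum_congr rfl fun u _ => ?_
    rw [Finset.sum_add_sum_compl]
  have h3 : ∑ u ∈ Bᶜ, dg J u = e2 J Bᶜ + ∑ u ∈ Bᶜ, ∑ v ∈ B, ind (J.Adj u v) := by
    unfold e2 dg
    rw [← Finset.sum_add_distrib]
    refine Finset.sum_congr rfl fun u _ => ?_
    rw [add_comm, Finset.sum_add_sum_compl]
  have h4 : ∑ u ∈ B, ∑ v ∈ Bᶜ, ind (J.Adj u v) = ∑ u ∈ Bᶜ, ∑ v ∈ B, ind (J.Adj u v) := by
    rw [Finset.sum_comm]
    refine Finset.sum_congr rfl fun u _ => Finset.sum_congr rfl fun v _ => ?_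
    congr 1
    exact propext ⟨fun h => h.symm, fun h => h.symm⟩
  omega

/-- the disjoint union of graphs on the same vertex set -/
def dun {ι V : Type} (J : ι → SimpleGraph V) : SimpleGraph (ι × V) where
  Adj p q := p.1 = q.1 ∧ (J p.1).Adj p.2 q.2
  symm := ⟨by
    rintro ⟨i, u⟩ ⟨j, v⟩ ⟨h, h'⟩
    simp only at h h'
    subst h
    exact ⟨rfl, h'.symm⟩⟩
  loopless := ⟨by
    rintro ⟨i, u⟩ ⟨_, h⟩
    exact (J i).loopless.irrefl u h⟩

/-- the part of `K` in the component `i` -/
def slice {ι V : Type} [Fintype V] [DecidableEq ι] [DecidableEq V] (K : Finset (ι × V)) (i : ι) :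
    Finset V := univ.filter (fun v => (i, v) ∈ K)

lemma sum_slice {ι V : Type} [Fintype ι] [Fintype V] [DecidableEq ι] [DecidableEq V]
    (K : Finset (ι × V)) (φ : ι × V → ℕ) :
    ∑ p ∈ K, φ p = ∑ i, ∑ v ∈ slice K i, φ (i, v) := by
  have h1 : ∑ p ∈ K, φ p = ∑ p : ι × V, if p ∈ K then φ p else 0 := by
    rw [← Finset.sum_filter]
    congr 1
    ext p
    simp
  rw [h1, Fintype.sum_prod_type]
  refine Finset.sum_congr rfl fun i _ => ?_
  unfold slice
  rw [Finset.sum_filter]

lemma card_slice {ι V : Type} [Fintype ι] [Fintype V] [DecidableEq ι] [DecidableEq V]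
    (K : Finset (ι × V)) : K.card = ∑ i, (slice K i).card := by
  have := sum_slice K (fun _ => 1)
  simpa using this

lemma e2_dun {ι V : Type} [Fintype ι] [Fintype V] [DecidableEq ι] [DecidableEq V]
    (J : ι → SimpleGraph V) (K : Finset (ι × V)) :
    e2 (dun J) K = ∑ i, e2 (J i) (slice K i) := by
  unfold e2
  rw [sum_slice]
  refine Finset.sum_congr rfl fun i _ => Finset.sum_congr rfl fun u _ => ?_
  rw [sum_slice]
  rw [← Finset.add_sum_erase univ _ (Finset.mem_univ i)]
  have h0 : ∑ j ∈ univ.erase i, ∑ v ∈ slice K j, ind ((dun J).Adj (i, u) (j, v)) = 0 := by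
    refine Finset.sum_eq_zero fun j hj => Finset.sum_eq_zero fun v _ => ind_f ?_
    rintro ⟨h, -⟩
    exact (Finset.mem_erase.1 hj).1 h.symm
  rw [h0, add_zero]
  refine Finset.sum_congr rfl fun v _ => ?_
  congr 1
  exact propext ⟨fun h => h.2, fun h => ⟨rfl, h⟩⟩

/-- one component -/
lemma comp {ι : Type} [Fintype ι] [DecidableEq ι] (k : ℕ) (J : ι → SimpleGraph (Fin k))
    (f : ι → Fin k → ℕ) (hf : ∀ i v, dg (J i) v + f i v = k - 1) (K : Finset (ι × Fin k))
    (hK : K.card = k) (i : ι) : ∃ t, t ≤ (k - (slice K i).card) * (k - (slice K i).card - 1) ∧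
      spans (dun J) K + (k - (slice K i).card) * (k - 1) =
        spans (J i) univ + ∑ v ∈ (slice K i)ᶜ, f i v + t := by
  set B := slice K i with hB
  set m := k - B.card with hm
  have hBc : Bᶜ.card = m := by
    rw [Finset.card_compl, Fintype.card_fin]
  have h1 := e2_dun J K
  rw [← Finset.add_sum_erase univ _ (Finset.mem_univ i)] at h1
  have h2 := card_slice K
  rw [← Finset.add_sum_erase univ _ (Finset.mem_univ i), hK] at h2
  have h3 := e2_compl (J i) B
  -- the foreign part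
  have hsum : ∑ j ∈ univ.erase i, (slice K j).card = m := by
    rw [hm, hB]; omega
  have h4 : ∑ j ∈ univ.erase i, e2 (J j) (slice K j) ≤ m * (m - 1) := by
    have h5 : ∀ j ∈ univ.erase i, e2 (J j) (slice K j) ≤ (slice K j).card * (m - 1) := by
      intro j hj
      have h6 : (slice K j).card ≤ m := by
        rw [← hsum]
        exact Finset.single_le_sum (f := fun j => (slice K j).card)
          (fun _ _ => Nat.zero_le _) hj
      exact (e2_le _ _).trans (Nat.mul_le_mul_left _ (by omega))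
    refine (Finset.sum_le_sum h5).trans ?_
    rw [← Finset.sum_mul, hsum]
  have h7 : e2 (J i) Bᶜ ≤ m * (m - 1) := by
    have := e2_le (J i) Bᶜ
    rwa [hBc] at this
  have h8 : ∑ v ∈ Bᶜ, dg (J i) v + ∑ v ∈ Bᶜ, f i v = m * (k - 1) := by
    rw [← Finset.sum_add_distrib, Finset.sum_congr rfl (fun v _ => hf i v), Finset.sum_const, hBc,
      smul_eq_mul]
  -- halves
  have h9 : ∃ a, ∑ j ∈ univ.erase i, e2 (J j) (slice K j) = 2 * a := by
    refine ⟨∑ j ∈ univ.erase i, spans (J j) (slice K j), ?_⟩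
    rw [Finset.mul_sum]
    exact Finset.sum_congr rfl fun j _ => e2_eq _ _
  obtain ⟨a, ha⟩ := h9
  rw [ha, e2_eq (dun J) K, e2_eq (J i) (slice K i)] at h1
  rw [e2_eq, e2_eq (J i) Bᶜ, e2_eq (J i) B] at h3
  rw [ha] at h4
  rw [e2_eq] at h7
  refine ⟨spans (J i) Bᶜ + a, ?_, ?_⟩
  · omega
  · rw [← hB] at h1
    omega

/-- no large component -/
lemma nolarge {ι : Type} [Fintype ι] [DecidableEq ι] (k c : ℕ) (J : ι → SimpleGraph (Fin k))
    (K : Finset (ι × Fin k)) (hK : K.card = k) (h : ∀ i, (slice K i).card ≤ k - c) :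
    2 * spans (dun J) K ≤ k * (k - c - 1) := by
  rw [← e2_eq, e2_dun]
  have h5 : ∀ i ∈ (univ : Finset ι), e2 (J i) (slice K i) ≤ (slice K i).card * (k - c - 1) := by
    intro i _
    exact (e2_le _ _).trans (Nat.mul_le_mul_left _ (by have := h i; omega))
  refine (Finset.sum_le_sum h5).trans ?_
  rw [← Finset.sum_mul, ← card_slice, hK]

end Pool.Agent.H57.KS
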