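import Mathlib

/-!
# A 4-adic set with long progressions that avoid it
-/

set_option autoImplicit false

namespace Pool.Agent.H57.KS

open Finset

/-- the tangency set in `(ℤ/4)²` -/
def TT (x t : ℕ) : Bool :=
  if x = 2 then (t == 0 || t == 3) else (t == 1 || t == 2)

/-- the slopes -/
def sl (x t : ℕ) : ℕ :=
  if x = 0 then 2 else if x = 2 then 0 else if x = 1 then (if t = 1 then 1 else 3)
  else (if t = 1 then 3 else 1)

lemma TT_slope_aux : ∀ x < 4, ∀ t < 4, ∀ m < 4, (TT x t = false ∨ m = 0 ∨
    TT ((x + m) % 4) ((t + m * sl x t) % 4) = false) := by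
  decide

lemma TT_slope (x : ℕ) (hx : x < 4) (t : ℕ) (ht : t < 4) (hT : TT x t = true) (m : ℕ)
    (hm : m < 4) (hm0 : m ≠ 0) : TT ((x + m) % 4) ((t + m * sl x t) % 4) = false := by
  rcases TT_slope_aux x hx t ht m hm with h | h | h
  · rw [hT] at h
    exact absurd h (by decide)
  · exact absurd h hm0
  · exact h

/-- integer versions of the digits -/
def dig (a : ℤ) : ℕ := (a % 4).toNat

lemma dig_lt (a : ℤ) : dig a < 4 := by
  unfold dig
  omega

lemma dig_cast (a : ℤ) : (dig a : ℤ) = a % 4 := by
  unfold dig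
  omega

/-- the good pairs (row, column) -/
def good : ℕ → ℤ → ℤ → Prop
  | 0, _, _ => True
  | L + 1, r, c => TT (dig r) (dig c) = true ∧
      good L (r / 4) ((c - 4 * (sl (dig r) (dig c) : ℤ) * (r / 4)) / 16)

lemma good_period (L : ℕ) : ∀ (r c j : ℤ), good L r (c + 16 ^ L * j) ↔ good L r c := by
  induction L with
  | zero =>
    intro r c j
    simp [good]
  | succ L ih =>
    intro r c j
    have h1 : dig (c + 16 ^ (L + 1) * j) = dig c := by
      unfold dig
      congr 1
      have : c + 16 ^ (L + 1) * j = c + 4 * (4 * 16 ^ L * j) := by ring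
      rw [this]
      omega
    have h2 : (c + 16 ^ (L + 1) * j - 4 * (sl (dig r) (dig c) : ℤ) * (r / 4)) / 16 =
        (c - 4 * (sl (dig r) (dig c) : ℤ) * (r / 4)) / 16 + 16 ^ L * j := by
      have : c + 16 ^ (L + 1) * j - 4 * (sl (dig r) (dig c) : ℤ) * (r / 4) =
        (c - 4 * (sl (dig r) (dig c) : ℤ) * (r / 4)) + 16 * (16 ^ L * j) := by ring
      rw [this]
      generalize (c - 4 * (sl (dig r) (dig c) : ℤ) * (r / 4)) = A
      generalize (16 ^ L * j : ℤ) = B
      omega
    unfold good
    rw [h1, h2, ih]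

/-- through every good pair there is a progression which avoids the good pairs -/
lemma good_slope (L : ℕ) : ∀ (r c : ℤ), 0 ≤ r → good L r c → ∃ y : ℤ, ∀ m : ℤ, 1 ≤ m →
    r + m < 4 ^ L → ¬ good L (r + m) (c + m * y) := by
  induction L with
  | zero =>
    intro r c hr _
    refine ⟨0, fun m hm h => ?_⟩
    simp at h
    omega
  | succ L ih =>
    intro r c hr hg
    obtain ⟨hT, hg'⟩ := hg
    obtain ⟨y', hy'⟩ := ih (r / 4) _ (by omega) hg'
    set s : ℕ := sl (dig r) (dig c) with hs
    refine ⟨(s : ℤ) + 4 * y', fun m hm hlt hgood => ?_⟩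
    obtain ⟨hT2, hg2⟩ := hgood
    by_cases hm4 : m % 4 = 0
    · obtain ⟨m', rfl⟩ : ∃ m', m = 4 * m' := ⟨m / 4, by omega⟩
      have e1 : dig (r + 4 * m') = dig r := by
        unfold dig
        congr 1
        omega
      have e2 : dig (c + 4 * m' * ((s : ℤ) + 4 * y')) = dig c := by
        unfold dig
        congr 1
        have : c + 4 * m' * ((s : ℤ) + 4 * y') = c + 4 * (m' * ((s : ℤ) + 4 * y')) := by ring
        rw [this]
        omega
      have e3 : (r + 4 * m') / 4 = r / 4 + m' := by omega
      rw [e1, e2, e3, ← hs] at hg2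
      have e4 : (c + 4 * m' * ((s : ℤ) + 4 * y') - 4 * (s : ℤ) * (r / 4 + m')) / 16 =
          (c - 4 * (s : ℤ) * (r / 4)) / 16 + m' * y' := by
        have : c + 4 * m' * ((s : ℤ) + 4 * y') - 4 * (s : ℤ) * (r / 4 + m') =
          (c - 4 * (s : ℤ) * (r / 4)) + 16 * (m' * y') := by ring
        rw [this]
        generalize (c - 4 * (s : ℤ) * (r / 4)) = A
        generalize (m' * y' : ℤ) = B
        omega
      rw [e4] at hg2
      refine hy' m' (by omega) ?_ hg2
      rw [pow_succ] at hlt
      omega
    · have h1 := TT_slope (dig r) (dig_lt r) (dig c) (dig_lt c) hT (dig m) (dig_lt m) (by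
        have := dig_cast m
        intro h0
        rw [h0] at this
        exact hm4 this.symm)
      have e1 : dig (r + m) = (dig r + dig m) % 4 := by
        have h2 := dig_cast r
        have h3 := dig_cast m
        have h4 := dig_cast (r + m)
        omega
      have e2 : dig (c + m * ((s : ℤ) + 4 * y')) = (dig c + dig m * s) % 4 := by
        have h2 := dig_cast c
        have h3 := dig_cast m
        have h4 := dig_cast (c + m * ((s : ℤ) + 4 * y'))
        have h5 : ((dig c + dig m * s : ℕ) : ℤ) % 4 = (c + m * ((s : ℤ) + 4 * y')) % 4 := by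
          push_cast
          rw [h2, h3]
          have h6 : c + m * ((s : ℤ) + 4 * y') = (c % 4 + m % 4 * s) + 4 * (c / 4 +
            m / 4 * s + m * y') := by
            have h7 := Int.mul_ediv_add_emod c 4
            have h8 := Int.mul_ediv_add_emod m 4
            nlinarith [h7, h8]
          rw [h6]
          omega
        omega
      rw [e1, e2, h1] at hT2
      exact absurd hT2 (by decide)

end Pool.Agent.H57.KS
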